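import Pool.Agent.Y482.Cv.UniZ
import Pool.Agent.Y472.J.Defs
import Pool.Agent.Y472.CJ.Mirx
import Pool.Agent.Y472.H.Growth5

/-!
# Complex volume of closed 3-braids: absolute constant
-/

set_option autoImplicit false

namespace Pool.Agent.Y482.Cv

open Finset Filter Topology
open Pool.Agent.W711.HT
open Pool.Agent.W719.AR (Fl)
open Pool.Agent.W719.AX (EXY)
open Pool.Agent.Y472 (SD3 RCrit3 RVal3 ftw bw S_MXZ S_MXN S_S0P)
open Pool.Agent.Y472.H (Lg' fin_ex)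
open Pool.Agent.Y481 (wts cw)
open Pool.Agent.Y482.Chi
open scoped Real

/-- the expansion with the complex volume, for one braid -/
def Cx (ls : List (ℤ × ℤ)) (m : ℤ) : Prop := ∃ (V C : ℝ) (y : ℕ → ℂ),
  IsGreatest {W : ℝ | ∃ f g F G : ℕ → Fl, ChiAng (2 * ls.length) (cw ls) m f g F G ∧
    chiVol (2 * ls.length) f g F G = W} V ∧
  (∃ x, RFlat (2 * ls.length) (cw ls) (-2) x) ∧
  (∀ (f g F G : ℕ → Fl) (x : ℕ → Piece), ChiAng (2 * ls.length) (cw ls) m f g F G →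
    chiVol (2 * ls.length) f g F G = V → RFlat (2 * ls.length) (cw ls) (-2) x → ∃ j : ℤ,
    csum (2 * ls.length) f g F G x = Complex.I * (V + Complex.I * C) + j * (π : ℂ) ^ 2) ∧
  y 0 ≠ 0 ∧ EXY (fun N => Pool.Agent.H550R3.Jones.cjones N 2 (ftw m ++ bw ls) (vN N))
    ((V + Complex.I * C) / (2 * π)) y

/-- from the critical value -/
lemma cx_of {ls : List (ℤ × ℤ)} {m : ℤ} {v : ℂ} {y : ℕ → ℂ} (hl : ls ≠ [])
    (h1 : IsGreatest {W : ℝ | ∃ f g F G : ℕ → Fl, ChiAng (2 * ls.length) (cw ls) m f g F G ∧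
      chiVol (2 * ls.length) f g F G = W} (2 * π * v.re))
    (h2 : ∀ (f g F G : ℕ → Fl) (x : ℕ → Piece), ChiAng (2 * ls.length) (cw ls) m f g F G →
      chiVol (2 * ls.length) f g F G = 2 * π * v.re → RFlat (2 * ls.length) (cw ls) (-2) x →
      ∃ k : ℤ, csum (2 * ls.length) f g F G x = 2 * π * Complex.I *
        (v - π * Complex.I / 4 * ∑ j ∈ range (2 * ls.length), (cw ls j : ℂ)) + k * (π : ℂ) ^ 2)
    (hy : y 0 ≠ 0)
    (hE : EXY (fun N => Pool.Agent.H550R3.Jones.cjones N 2 (ftw m ++ bw ls) (vN N))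
      (v - π * Complex.I / 4 * (wts ls).sum) y) : Cx ls m := by
  have hn : 1 ≤ 2 * ls.length := by
    have := List.length_pos_iff.2 hl
    omega
  have hsum : ((wts ls).sum : ℂ) = ∑ j ∈ range (2 * ls.length), (cw ls j : ℂ) := by
    rw [wts_sum]
    push_cast
    rfl
  refine ⟨2 * π * (v - π * Complex.I / 4 * (wts ls).sum).re,
    2 * π * (v - π * Complex.I / 4 * (wts ls).sum).im, y, ?_,
    ⟨_, exists_flat (2 * ls.length) hn (cw ls) (-2)⟩, ?_, hy, ?_⟩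
  · rw [sub_phase_re]
    exact h1
  · intro f g F G x hA hV hx
    rw [sub_phase_re] at hV
    obtain ⟨j, hj⟩ := h2 f g F G x hA hV hx
    refine ⟨j, ?_⟩
    rw [hj, split_v, hsum]
    ring
  · rw [split_v']
    exact hE

/-- many twist regions -/
theorem cxN_of (h : S_MXN) : ∃ (K : ℕ) (M : ℝ), ∀ k : ℕ, K ≤ k → 1 ≤ k →
    ∀ (ls : List (ℤ × ℤ)) (m : ℤ), ls.length = k → Lg' M ls → Cx ls m := by
  obtain ⟨ρ₀, c, C, s, dl, hS, K, M, H⟩ := h
  refine ⟨K, M, fun k hK hk ls m hl hls => ?_⟩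
  obtain ⟨z, χ, y, hχ, hz, hy, hE⟩ := H k hK ls m hl hls
  subst hl
  have hn : 1 ≤ 2 * ls.length := by omega
  have hX := crit_of hS hn hz hχ
  have hval := val_of Pool.Agent.W583.HTP.poth hS hn hz hχ
  refine cx_of (by rintro rfl; simp at hk) (geox3 hS hn hz hχ) ?_ hy hE
  intro f g F G x hA hV hx
  rw [csum_congr (uni (2 * ls.length) (cw ls) m z χ _ hn hX f g F G hA (by rw [hV, hval]))]
  exact csum_crit hS hn hz hχ hx rfl

/-- `k` and `m` fixed -/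
theorem cxZ_of (hS0 : S_S0P) (h : S_MXZ) : ∀ (k m : ℕ), 1 ≤ k → ¬ (k = 1 ∧ m = 0) → ∃ M : ℝ,
    ∀ ls : List (ℤ × ℤ), ls.length = k → Lg' M ls → Cx ls m := by
  intro k m hk hkm
  obtain ⟨χ₀, ρ₀, c, C, hZ, hS, H⟩ := h k m hk (by positivity) (by
    rintro ⟨h1, h2⟩
    exact hkm ⟨h1, by exact_mod_cast h2⟩)
  obtain ⟨ε, hε, hG⟩ := cvz hS0 χ₀ hZ
  obtain ⟨M, hM⟩ := H ε hε
  refine ⟨M, fun ls hl hls => ?_⟩
  obtain ⟨z, χ, y, hcr, hz, hχ, hy, hE⟩ := hM ls hl hls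
  subst hl
  obtain ⟨g1, g2⟩ := hG _ _ _ _ _ hS _ _ _ _ _ (by omega) hcr hz hχ
  exact cx_of (by rintro rfl; simp at hk) g1 g2 hy hE

/-- a constant depending on `k`, all numbers `m ≥ 0` -/
theorem cxK (hZ : ∀ (k m : ℕ), 1 ≤ k → ¬ (k = 1 ∧ m = 0) → ∃ M : ℝ, ∀ ls : List (ℤ × ℤ),
    ls.length = k → Lg' M ls → Cx ls m) (k : ℕ) (hk : 1 ≤ k) :
    ∃ M : ℝ, ∀ (ls : List (ℤ × ℤ)) (m : ℕ), ls.length = k → Lg' M ls → ¬ (k = 1 ∧ m = 0) →
      Cx ls m := by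
  obtain ⟨M1, h1⟩ := fin_closed k hk
  obtain ⟨M2, h2⟩ := fin_ex (P := fun m M => ¬ (k = 1 ∧ m = 0) → ∀ ls : List (ℤ × ℤ),
    ls.length = k → Lg' M ls → Cx ls m) (by
      intro m
      by_cases h : k = 1 ∧ m = 0
      · exact ⟨0, fun h' => absurd h h'⟩
      · obtain ⟨M, hM⟩ := hZ k m hk h
        exact ⟨M, fun _ => hM⟩)
    (fun m M M' hMM' h h3 ls hl hls => h h3 ls hl (hls.mono hMM')) ⌈M1⌉₊
  refine ⟨max M1 M2, fun ls m hl hls hkm => ?_⟩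
  by_cases hm : m < ⌈M1⌉₊
  · exact h2 m hm hkm ls hl (hls.mono (le_max_right _ _))
  · have h3 : M1 ≤ |((m : ℤ) : ℝ)| := by
      have h4 := Nat.le_ceil M1
      have h5 : (⌈M1⌉₊ : ℝ) ≤ m := by exact_mod_cast not_lt.1 hm
      have h6 : ((m : ℤ) : ℝ) = (m : ℝ) := by push_cast; rfl
      rw [h6]
      exact (h4.trans h5).trans (le_abs_self _)
    have h7 := h1 ls m hl (hls.mono (le_max_left _ _)) h3
    unfold Cx
    rw [hl]
    exact h7

/-- an absolute constant -/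
theorem cxAbs (hS0 : S_S0P) (h1 : S_MXZ) (h2 : S_MXN) :
    ∃ M : ℝ, ∀ (ls : List (ℤ × ℤ)) (m : ℕ), ls ≠ [] → ¬ (ls.length = 1 ∧ m = 0) → Lg' M ls →
      Cx ls m := by
  have hZ := cxZ_of hS0 h1
  obtain ⟨K, M1, h1⟩ := cxN_of h2
  obtain ⟨M2, h2⟩ := fin_ex (P := fun k M => 1 ≤ k → ∀ (ls : List (ℤ × ℤ)) (m : ℕ),
    ls.length = k → Lg' M ls → ¬ (k = 1 ∧ m = 0) → Cx ls m) (by
      intro k
      by_cases h : 1 ≤ k
      · obtain ⟨M, hM⟩ := cxK hZ k h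
        exact ⟨M, fun _ => hM⟩
      · exact ⟨0, fun h' => absurd h' h⟩)
    (fun k M M' hMM' h h3 ls m hl hls hkm => h h3 ls m hl (hls.mono hMM') hkm) K
  refine ⟨max M1 M2, fun ls m hne hkm hls => ?_⟩
  have hk : 1 ≤ ls.length := List.length_pos_iff.2 hne
  by_cases hK : K ≤ ls.length
  · exact h1 _ hK hk ls m rfl (hls.mono (le_max_left _ _))
  · exact h2 _ (not_le.1 hK) hk ls m rfl (hls.mono (le_max_right _ _)) hkm

/-- complex conjugation of expansions -/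
lemma exy_conj {a : ℕ → ℂ} {v : ℂ} {y : ℕ → ℂ} (h : EXY a v y) :
    EXY (fun N => (starRingEnd ℂ) (a N)) ((starRingEnd ℂ) v) (fun k => (starRingEnd ℂ) (y k)) := by
  intro K
  obtain ⟨C, hC⟩ := h K
  refine ⟨C, ?_⟩
  filter_upwards [hC] with N hN
  have e : (starRingEnd ℂ) (a N) / (((Real.sqrt N) ^ 3 : ℝ) *
      Complex.exp (N * (starRingEnd ℂ) v)) - ∑ k ∈ range K, (starRingEnd ℂ) (y k) / (N : ℂ) ^ k =
      (starRingEnd ℂ) (a N / (((Real.sqrt N) ^ 3 : ℝ) * Complex.exp (N * v)) -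
        ∑ k ∈ range K, y k / (N : ℂ) ^ k) := by
    rw [map_sub, map_div₀, map_mul, Complex.conj_ofReal, ← Complex.exp_conj, map_mul,
      Complex.conj_natCast, map_sum]
    congr 1
    refine sum_congr rfl fun k _ => ?_
    rw [map_div₀, map_pow, Complex.conj_natCast]
  rw [e, Complex.norm_conj]
  exact hN

/-- mirror images -/
lemma exy_mirror {ls : List (ℤ × ℤ)} {m : ℤ} {V C : ℝ} {y : ℕ → ℂ} (hl : ls ≠ [])
    (h : EXY (fun N => Pool.Agent.H550R3.Jones.cjones N 2 (ftw m ++ bw ls) (vN N))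
      ((V + Complex.I * C) / (2 * π)) y) :
    EXY (fun N => Pool.Agent.H550R3.Jones.cjones N 2
      (ftw (-m) ++ bw (ls.map fun p => (-p.1, -p.2))) (vN N))
      ((V + Complex.I * ((-C : ℝ) : ℂ)) / (2 * π)) (fun k => (starRingEnd ℂ) (y k)) := by
  have h1 := exy_conj h
  have e : (starRingEnd ℂ) ((V + Complex.I * C) / (2 * π)) =
      (V + Complex.I * ((-C : ℝ) : ℂ)) / (2 * π) := by
    simp only [map_div₀, map_add, map_mul, Complex.conj_ofReal, Complex.conj_I, map_ofNat]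
    push_cast
    ring
  rw [e] at h1
  intro K
  obtain ⟨D, hD⟩ := h1 K
  refine ⟨D, ?_⟩
  filter_upwards [hD, eventually_ge_atTop 2] with N hN h2
  rw [Pool.Agent.Y472.CJ.mirx N ls m h2 hl]
  exact hN

end Pool.Agent.Y482.Cv
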