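import Pool.Agent.Y482.Cv.Stmt
import Pool.Agent.Y482.Chi.Fin


/-!
# The critical points at `χ = 0`
-/

set_option autoImplicit false

namespace Pool.Agent.Y482.Cv

open Finset
open Pool.Agent.W711.HT
open Pool.Agent.Y482 (sum_succ_mod)
open Pool.Agent.Y482.Chi
open Pool.Agent.Y482.Ph (RCrit0 RVal0)
open Pool.Agent.Y472 (SD3)
open scoped Real

lemma lc0 (u : ℂ) : Lc u 0 = Complex.log (Complex.sin (u / 2) / Complex.sin (u / 2)) := by
  unfold Lc
  rw [add_zero, sub_zero]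

lemma lc0_im (u : ℂ) : (Lc u 0).im = 0 := by
  rw [lc0]
  by_cases h : Complex.sin (u / 2) = 0
  · rw [h]; simp
  · rw [div_self h]; simp

theorem cra : S_CRA := by
  intro ρ₀ c C s dl hS n a z hn h
  have hpi : (π : ℂ) ≠ 0 := Complex.ofReal_ne_zero.2 Real.pi_ne_zero
  have m0 : (0 : ℂ) ∈ Rc ρ₀ ρ₀ := by
    constructor
    · simpa using hS.hρ.1
    · simpa using hS.hρ.1
  have z0 : ∀ w : ℂ, 0 < w.im → w ≠ 0 := by
    intro w hw h0
    rw [h0] at hw
    simp at hw
  have hX : CritA n a z (fun j => 2 * π * dl (z j) (z ((j + 1) % n)) 0) := by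
    refine ⟨?_, ?_⟩
    · intro j hj
      have h1 : (j + 1) % n < n := Nat.mod_lt _ (by omega)
      obtain ⟨m1, i1, n1, -⟩ := h j hj
      obtain ⟨m2, i2, n2, -⟩ := h _ h1
      refine ⟨z0 _ i1, z0 _ i2, n1, n2, by simp, ?_, ?_⟩
      · have h3 := (hS.dclose _ m1 _ m2 _ m0).1
        rw [show (2 : ℂ) * π * dl (z j) (z ((j + 1) % n)) 0 - π / 2 =
          2 * π * (dl (z j) (z ((j + 1) % n)) 0 - 1 / 4) by ring, norm_mul, norm_mul,
          Complex.norm_ofNat, Complex.norm_real, Real.norm_eq_abs, abs_of_pos Real.pi_pos]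
        nlinarith [Real.pi_pos]
      · have h3 := hS.dcos _ m1 _ m2 _ m0
        have h4 : (1 + Complex.cos 0 + Complex.cos (z j) + Complex.cos (z ((j + 1) % n))) ≠ 0 := by
          have n1' : ‖z j / 2‖ ≤ 1 / 20 := by rw [norm_div, Complex.norm_ofNat]; linarith
          have n2' : ‖z ((j + 1) % n) / 2‖ ≤ 1 / 20 := by
            rw [norm_div, Complex.norm_ofNat]; linarith
          have n3' : ‖(0 : ℂ) / 2‖ ≤ 1 / 20 := by rw [zero_div, norm_zero]; norm_num
          have := (den_ne n1' n2' n3').1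
          rwa [show 2 * ((0 : ℂ) / 2) = 0 by ring, show 2 * (z j / 2) = z j by ring,
            show 2 * (z ((j + 1) % n) / 2) = z ((j + 1) % n) by ring] at this
        rw [h3, div_mul_cancel₀ _ h4]
    · intro j hj
      have h1 : (j + 1) % n < n := Nat.mod_lt _ (by omega)
      have h2 : ((j + 1) % n + 1) % n < n := Nat.mod_lt _ (by omega)
      obtain ⟨m1, -, -, e1⟩ := h j hj
      obtain ⟨m2, -⟩ := h _ h1
      obtain ⟨m3, -⟩ := h _ h2
      rw [der2x hS m1 m2 m0, (hS.sder _ m2 _ m3 _ m0).deriv] at e1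
      have h3 : (2 : ℂ) * π * (Complex.I * a ((j + 1) % n) * z ((j + 1) % n) / (2 * π) + Complex.I +
        -(1 / (2 * π)) * Lg (2 * π * dl (z j) (z ((j + 1) % n)) 0) (z ((j + 1) % n)) +
        -(1 / (2 * π)) * Lg (2 * π * dl (z ((j + 1) % n)) (z (((j + 1) % n + 1) % n)) 0)
          (z ((j + 1) % n))) = 0 := by rw [e1, mul_zero]
      field_simp at h3
      linear_combination h3
  refine ⟨hX, ?_⟩
  unfold RVal0
  rw [Complex.re_sum, mul_sum]
  have e0 : ∀ j ∈ range n, 2 * π * (Complex.I * a j * z j ^ 2 / (4 * π) + Complex.I * z j +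
      s (z j) (z ((j + 1) % n)) 0).re =
      hvX (z j) (z ((j + 1) % n)) 0 (2 * π * dl (z j) (z ((j + 1) % n)) 0) +
      ((z j).im * ((Lg (2 * π * dl (z j) (z ((j + 1) % n)) 0) (z j)).im -
        ((a j : ℝ) * (z j).re + 2 * π))) +
      (z ((j + 1) % n)).im *
        (Lg (2 * π * dl (z j) (z ((j + 1) % n)) 0) (z ((j + 1) % n))).im := by
    intro j hj
    rw [mem_range] at hj
    have h1 : (j + 1) % n < n := Nat.mod_lt _ (by omega)
    obtain ⟨m1, i1, n1, -⟩ := h j hj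
    obtain ⟨m2, i2, n2, -⟩ := h _ h1
    have t1 := pot3 Pool.Agent.W583.HTP.poth (hS.dclose _ m1 _ m2 _ m0).1 n1 n2 (by simp)
      (hS.dcrit _ m1 _ m2 _ m0)
    have t2 := Pool.Agent.W571.AR.val_re (a j) (z j)
    rw [Complex.zero_im, zero_mul, add_zero] at t1
    rw [Complex.add_re, mul_add, hS.scrit _ m1 _ m2 _ m0, t1, t2]
    ring
  rw [sum_congr rfl e0, sum_add_distrib, sum_add_distrib,
    ← sum_succ_mod n hn (fun j => (z j).im * ((Lg (2 * π * dl (z j) (z ((j + 1) % n)) 0) (z j)).im -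
        ((a j : ℝ) * (z j).re + 2 * π)))]
  have e1 : ∑ j ∈ range n, ((z ((j + 1) % n)).im *
      ((Lg (2 * π * dl (z ((j + 1) % n)) (z (((j + 1) % n + 1) % n)) 0) (z ((j + 1) % n))).im -
        ((a ((j + 1) % n) : ℝ) * (z ((j + 1) % n)).re + 2 * π))) +
      ∑ j ∈ range n, (z ((j + 1) % n)).im *
        (Lg (2 * π * dl (z j) (z ((j + 1) % n)) 0) (z ((j + 1) % n))).im = 0 := by
    rw [← sum_add_distrib]
    refine sum_eq_zero fun j hj => ?_
    rw [mem_range] at hj
    have e2 := Pool.Agent.W571.AR.im_eq _ _ _ (hX.vert j hj)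
    rw [Complex.add_im] at e2
    linear_combination (-(z ((j + 1) % n)).im) * e2
  linear_combination e1

end Pool.Agent.Y482.Cv
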