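import Pool.Agent.Y482.Cv.Defs

/-!
# Existence of labels
-/

set_option autoImplicit false

namespace Pool.Agent.Y482.Cv

open Finset
open scoped Classical in
/-- the labels of two octahedra -/
noncomputable def piece (w r : ℤ) : Piece where
  f := ⟨2, -1, 0, 0, 0, 1⟩
  g := ⟨-r, 1, r, r, -r, 1⟩
  F := ⟨1, -1, 1, 1, -1, 1⟩
  G := ⟨r, 1, -r, -r, r, 1⟩
  n1 := if Even w then 1 else 0
  n2 := if Even w then 0 else 1
  n3 := 2
  n4 := 3

lemma piece_inner (w r : ℤ) : (piece w r).Inner := by
  unfold Piece.Inner piece
  simp only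
  refine ⟨by omega, by omega, by omega, by omega, by omega, by omega, ?_⟩
  split_ifs <;> norm_num

lemma piece_bottom (w r : ℤ) : (piece w r).Bottom := by
  unfold Piece.Bottom piece
  simp only
  omega

lemma piece_top (w r : ℤ) : (piece w r).Top := by
  unfold Piece.Top piece
  simp only
  omega

lemma piece_low (w r : ℤ) : (piece w r).low = 2 := by
  simp [Piece.low, piece]

lemma piece_high (w r : ℤ) : (piece w r).high = 0 := by
  simp [Piece.high, piece]

lemma piece_along (w r : ℤ) : (piece w r).along = r := by
  simp [Piece.along, piece]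

/-- flattenings exist -/
theorem exists_flat (n : ℕ) (hn : 1 ≤ n) (a : ℕ → ℤ) (c : ℤ) :
    RFlat n a c (fun j => piece (a j) (if j = 0 then c else 0)) := by
  refine ⟨?_, ?_, ?_⟩
  · intro j _
    exact ⟨piece_inner _ _, piece_bottom _ _, piece_top _ _⟩
  · intro j _
    refine ⟨?_, ?_, ?_, ?_⟩
    · rw [piece_low, piece_high]; rfl
    · intro hw
      simp only [piece, hw, if_true]
      split_ifs <;> norm_num
    · intro hw
      have hw' : ¬ Even (a ((j + 1) % n)) := Int.not_even_iff_odd.2 hw
      simp only [piece, hw', if_false]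
      split_ifs <;> norm_num
    · simp only [piece]
      split_ifs <;> norm_num
  · simp only [piece_along]
    rw [sum_ite_eq' (range n) 0 (fun _ => c), if_pos (mem_range.2 (by omega))]

end Pool.Agent.Y482.Cv
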