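import Pool.Agent.Y482.Cv.Stmt
import Pool.Agent.TH563.CU.TetS
import Pool.Agent.Y482.Chi.Fin

/-!
# Uniqueness of the structure of maximal volume
-/

set_option autoImplicit false

namespace Pool.Agent.Y482.Cv

open Finset
open Complex (exp log cos sin I)
open Pool.Agent.W711.HT
open Pool.Agent.W719.AR (Fl S_VLF)
open Pool.Agent.W709.VC (S_TET)
open Pool.Agent.W737.AR (Lf vol_le)
open Pool.Agent.TH563.CU (vol_eq)
open Pool.Agent.Y482 (sum_succ_mod)
open Pool.Agent.Y482.Chi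
open Pool.Agent.Y482.Ph (RCrit0 RVal0)
open Pool.Agent.Y472 (SD3)
open scoped Real

section
variable {n : ℕ} {a : ℕ → ℤ} {z : ℕ → ℂ} {χ : ℂ} {u : ℕ → ℂ} {f g F G : ℕ → Fl}

/-- the linear terms -/
noncomputable def lin (n : ℕ) (z : ℕ → ℂ) (χ : ℂ) (u : ℕ → ℂ) (f g F G : ℕ → Fl) (j : ℕ) : ℝ :=
  TB (u j / 2) (z j / 2) (χ / 2) ((log (cos (z j / 2 + χ / 2))).re +
      (log (cos (z j / 2 - χ / 2))).re) (f j) (g j) (F j) (G j) +
    TU (u j / 2) (z ((j + 1) % n) / 2) (χ / 2) ((log (cos (z ((j + 1) % n) / 2 + χ / 2))).re +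
      (log (cos (z ((j + 1) % n) / 2 - χ / 2))).re) (f j) (g j) (F j) (G j) +
    TX (u j / 2) (z j / 2) (z ((j + 1) % n) / 2) (χ / 2) (f j) (g j) (F j) (G j)

/-- the volume at an edge -/
lemma block_le {j : ℕ} (hB : BX (u j / 2) (z j / 2) (z ((j + 1) % n) / 2) (χ / 2))
    (p : (f j).Pos ∧ (g j).Pos ∧ (F j).Pos ∧ (G j).Pos)
    (d : (f j).b + (f j).c' + ((g j).b + (g j).c') = 2 * π ∧
      (F j).b + (F j).c' + ((G j).b + (G j).c') = 2 * π) :
    0 ≤ (cf z χ u j).vol + (cg n z χ u j).vol + (cF z χ u j).vol + (cG n z χ u j).vol -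
      lin n z χ u f g F G j - ((f j).vol + (g j).vol + (F j).vol + (G j).vol) ∧
    ((cf z χ u j).vol + (cg n z χ u j).vol + (cF z χ u j).vol + (cG n z χ u j).vol -
      lin n z χ u f g F G j - ((f j).vol + (g j).vol + (F j).vol + (G j).vol) = 0 →
      f j = cf z χ u j ∧ g j = cg n z χ u j ∧ F j = cF z χ u j ∧ G j = cG n z χ u j) := by
  obtain ⟨p1, p2, p3, p4⟩ := p
  obtain ⟨d1, d2⟩ := d
  have key := blk_lf hB p1 p2 p3 p4 d1 d2
  have v1 := vol_le Pool.Agent.W120.VC.tet _ (f j) hB.s1.posA p1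
  have v2 := vol_le Pool.Agent.W120.VC.tet _ (g j) hB.s2.posA p2
  have v3 := vol_le Pool.Agent.W120.VC.tet _ (F j) hB.s1.posB p3
  have v4 := vol_le Pool.Agent.W120.VC.tet _ (G j) hB.s2.posB p4
  unfold lin cf cg cF cG
  refine ⟨by linarith, fun h => ⟨?_, ?_, ?_, ?_⟩⟩
  · exact vol_eq _ _ hB.s1.posA p1 (by linarith)
  · exact vol_eq _ _ hB.s2.posA p2 (by linarith)
  · exact vol_eq _ _ hB.s1.posB p3 (by linarith)
  · exact vol_eq _ _ hB.s2.posB p4 (by linarith)

/-- the case of equality -/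
lemma max_eq (hB : ∀ j < n, BX (u j / 2) (z j / 2) (z ((j + 1) % n) / 2) (χ / 2))
    (p : ∀ j < n, (f j).Pos ∧ (g j).Pos ∧ (F j).Pos ∧ (G j).Pos)
    (d : ∀ j < n, (f j).b + (f j).c' + ((g j).b + (g j).c') = 2 * π ∧
      (F j).b + (F j).c' + ((G j).b + (G j).c') = 2 * π)
    (hl : ∑ j ∈ range n, lin n z χ u f g F G j = 0) :
    chiVol n f g F G ≤ chiVol n (cf z χ u) (cg n z χ u) (cF z χ u) (cG n z χ u) ∧
    (chiVol n (cf z χ u) (cg n z χ u) (cF z χ u) (cG n z χ u) ≤ chiVol n f g F G →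
      ∀ j < n, f j = cf z χ u j ∧ g j = cg n z χ u j ∧ F j = cF z χ u j ∧ G j = cG n z χ u j) := by
  have hnn : ∀ j ∈ range n, 0 ≤ (cf z χ u j).vol + (cg n z χ u j).vol + (cF z χ u j).vol +
      (cG n z χ u j).vol - lin n z χ u f g F G j -
      ((f j).vol + (g j).vol + (F j).vol + (G j).vol) := by
    intro j hj
    rw [mem_range] at hj
    exact (block_le (hB j hj) (p j hj) (d j hj)).1
  have e : ∑ j ∈ range n, ((cf z χ u j).vol + (cg n z χ u j).vol + (cF z χ u j).vol +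
      (cG n z χ u j).vol - lin n z χ u f g F G j -
      ((f j).vol + (g j).vol + (F j).vol + (G j).vol)) =
      chiVol n (cf z χ u) (cg n z χ u) (cF z χ u) (cG n z χ u) - chiVol n f g F G := by
    unfold chiVol
    rw [sum_sub_distrib, sum_sub_distrib, hl, sub_zero]
  have h0 := sum_nonneg hnn
  refine ⟨by linarith, fun h j hj => ?_⟩
  have h1 := (sum_eq_zero_iff_of_nonneg hnn).1 (by linarith) j (mem_range.2 hj)
  exact (block_le (hB j hj) (p j hj) (d j hj)).2 h1

/-- the rotation along the longitude of the axis is constant -/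
lemma rlam_const (p : ∀ j < n, (f j).Pos ∧ (g j).Pos ∧ (F j).Pos ∧ (G j).Pos)
    (d : ∀ j < n, (f j).b + (f j).c' + ((g j).b + (g j).c') = 2 * π ∧
      (F j).b + (F j).c' + ((G j).b + (G j).c') = 2 * π)
    (v : ∀ j < n, VX (a ((j + 1) % n)) (f j) (g j) (F j) (G j)
      (f ((j + 1) % n)) (g ((j + 1) % n)) (F ((j + 1) % n)) (G ((j + 1) % n))) :
    ∀ j < n, rlam (f j) (g j) (F j) (G j) = rlam (f 0) (g 0) (F 0) (G 0) := by
  intro j
  induction j with
  | zero => intro _; rfl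
  | succ k ih =>
    intro hk
    have hk' : k < n := by omega
    have e : (k + 1) % n = k + 1 := Nat.mod_eq_of_lt hk
    have hv := v k hk'
    rw [e] at hv
    obtain ⟨p1, p2, p3, p4⟩ := p _ hk
    obtain ⟨d1, d2⟩ := d _ hk
    rw [rlam_step hv p1 p2 p3 p4 d1 d2, ih hk']

/-- the sum of the linear terms -/
lemma lin_sum (hn : 1 ≤ n)
    (hl : ∀ j < n, I * (a ((j + 1) % n) * (2 * (z ((j + 1) % n) / 2)) + 2 * π) =
      lgr (u j / 2) (z ((j + 1) % n) / 2) + lgr (u ((j + 1) % n) / 2) (z ((j + 1) % n) / 2))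
    (v : ∀ j < n, VX (a ((j + 1) % n)) (f j) (g j) (F j) (G j)
      (f ((j + 1) % n)) (g ((j + 1) % n)) (F ((j + 1) % n)) (G ((j + 1) % n))) :
    ∑ j ∈ range n, lin n z χ u f g F G j = ∑ j ∈ range n, TX (u j / 2) (z j / 2)
      (z ((j + 1) % n) / 2) (χ / 2) (f j) (g j) (F j) (G j) := by
  unfold lin
  rw [sum_add_distrib, sum_add_distrib,
    ← sum_succ_mod n hn (fun j => TB (u j / 2) (z j / 2) (χ / 2)
      ((log (cos (z j / 2 + χ / 2))).re + (log (cos (z j / 2 - χ / 2))).re)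
      (f j) (g j) (F j) (G j)), ← sum_add_distrib]
  have e1 : ∑ j ∈ range n, (TB (u ((j + 1) % n) / 2) (z ((j + 1) % n) / 2) (χ / 2)
      ((log (cos (z ((j + 1) % n) / 2 + χ / 2))).re +
        (log (cos (z ((j + 1) % n) / 2 - χ / 2))).re)
      (f ((j + 1) % n)) (g ((j + 1) % n)) (F ((j + 1) % n)) (G ((j + 1) % n)) +
      TU (u j / 2) (z ((j + 1) % n) / 2) (χ / 2) ((log (cos (z ((j + 1) % n) / 2 + χ / 2))).re +
        (log (cos (z ((j + 1) % n) / 2 - χ / 2))).re) (f j) (g j) (F j) (G j)) = 0 := by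
    refine sum_eq_zero fun j hj => ?_
    rw [mem_range] at hj
    exact vertexX (v j hj) (hl j hj) _
  rw [e1, zero_add]

end

theorem uni : S_UNI := by
  intro n a m z χ u hn h f g F G hy hle
  have hR := rlam_const hy.pos hy.diag hy.vert
  have h2 : ∑ j ∈ range n, lin n z χ u f g F G j = 0 := by
    rw [lin_sum hn (fun j hj => h.lgr hj) hy.vert]
    have e2 : ∀ j ∈ range n, TX (u j / 2) (z j / 2) (z ((j + 1) % n) / 2) (χ / 2) (f j) (g j) (F j)
        (G j) = (Chi.lcr (u j / 2) (χ / 2)).re *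
          ((rlam (f 0) (g 0) (F 0) (G 0) - 4 * (χ / 2).re) / 2) +
        (-(χ / 2).im) * (rho (f j) (g j) (F j) (G j)) +
        (-2 * (χ / 2).im) * (Chi.lcr (u j / 2) (χ / 2)).im +
        ((χ / 2).im * (2 * (log (cos (z j / 2 + χ / 2))).im) -
        (χ / 2).im * (2 * (log (cos (z ((j + 1) % n) / 2 + χ / 2))).im)) := by
      intro j hj
      rw [mem_range] at hj
      have := hR j hj
      rw [← this]
      unfold TX rlam rho
      ring
    rw [sum_congr rfl e2, sum_add_distrib, sum_add_distrib, sum_add_distrib, sum_sub_distrib,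
      sum_succ_mod n hn (fun j => (χ / 2).im * (2 * (log (cos (z j / 2 + χ / 2))).im)), sub_self,
      add_zero, ← sum_mul, ← mul_sum, ← mul_sum, hy.fill]
    have he := congrArg Complex.im h.lcr
    have hf := congrArg Complex.re h.lcr
    rw [Complex.im_sum, im_I_mul] at he
    rw [Complex.re_sum, re_I_mul] at hf
    have g1 : (2 * (m : ℂ) * (2 * (χ / 2)) + 2 * π).re = 2 * m * (2 * (χ / 2).re) + 2 * π := by
      simp
    have g2 : (2 * (m : ℂ) * (2 * (χ / 2)) + 2 * π).im = 2 * m * (2 * (χ / 2).im) := by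
      simp
    rw [g1] at he
    rw [g2] at hf
    rw [← he, ← hf]
    ring
  refine (max_eq (fun j hj => h.bx hj) hy.pos hy.diag h2).2 ?_
  rw [← crit_vol Pool.Agent.Y482.g_VLF hn h] at hle
  exact hle

lemma lcr0 (a : ℂ) : lcr a 0 = 0 := by
  unfold lcr
  rw [add_zero, sub_zero, sub_self]

lemma CritA.bx {n : ℕ} {a : ℕ → ℤ} {z u : ℕ → ℂ} (h : CritA n a z u) {j : ℕ} (hj : j < n) :
    BX (u j / 2) (z j / 2) (z ((j + 1) % n) / 2) (0 / 2) := (h.hx j hj).bx.2

lemma CritA.lgr {n : ℕ} {a : ℕ → ℤ} {z u : ℕ → ℂ} (h : CritA n a z u) {j : ℕ} (hj : j < n) :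
    I * (a ((j + 1) % n) * (2 * (z ((j + 1) % n) / 2)) + 2 * π) =
      lgr (u j / 2) (z ((j + 1) % n) / 2) +
      Chi.lgr (u ((j + 1) % n) / 2) (z ((j + 1) % n) / 2) := by
  have h1 : (j + 1) % n < n := Nat.mod_lt _ (by omega)
  rw [← (h.bx hj).lg1.2.1, ← (h.bx h1).lg1.1, show 2 * (z ((j + 1) % n) / 2) = z ((j + 1) % n) by
    ring]
  exact h.vert j hj

theorem geoa8 : S_GEOA8 := by
  intro n a z u hn h
  have hvol : chiVol n (cf z 0 u) (cg n z 0 u) (cF z 0 u) (cG n z 0 u) =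
      ∑ j ∈ range n, hvX (z j) (z ((j + 1) % n)) 0 (u j) := by
    unfold chiVol cf cg cF cG
    have hr : ∀ j ∈ range n, (flA (u j / 2) (z j / 2) (0 / 2)).vol +
        (flA (u j / 2) (-(z ((j + 1) % n) / 2)) (-(0 / 2))).vol +
        (flB (u j / 2) (z j / 2) (0 / 2)).vol +
        (flB (u j / 2) (-(z ((j + 1) % n) / 2)) (-(0 / 2))).vol =
        hvX (z j) (z ((j + 1) % n)) 0 (u j) +
        ((eps (z j / 2) - eps (z j / 2 + 0 / 2)) -
        (eps (z ((j + 1) % n) / 2) - eps (z ((j + 1) % n) / 2 + 0 / 2))) := by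
      intro j hj
      rw [mem_range] at hj
      have := blk_vol Pool.Agent.Y482.g_VLF (h.hx j hj)
      unfold bv at this
      rw [this]
      ring
    rw [sum_congr rfl hr, sum_add_distrib, sum_sub_distrib,
      sum_succ_mod n hn (fun j => eps (z j / 2) - eps (z j / 2 + 0 / 2)), sub_self, add_zero]
  refine ⟨⟨?_, ?_, ?_, ?_, ?_⟩, hvol, ?_⟩
  · intro j hj
    exact ⟨(h.bx hj).s1.posA, (h.bx hj).s2.posA, (h.bx hj).s1.posB, (h.bx hj).s2.posB⟩
  · intro j hj
    exact ⟨(blkAng (h.bx hj)).dA, (blkAng (h.bx hj)).dB⟩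
  · intro j hj
    have h1 : (j + 1) % n < n := Nat.mod_lt _ (by omega)
    have q := blkAng (h.bx hj)
    have q' := blkAng (h.bx h1)
    unfold cf cg cF cG
    refine ⟨?_, ?_, ?_, ?_, ?_, ?_, ?_⟩
    · linarith [q.TS, q'.BS]
    · linarith [q.TA, q'.BA]
    · linarith [q.CAt, q'.CAb]
    · linarith [q.CRt, q'.CRb]
    · intro _
      exact ⟨by linarith [q.Pt, q'.Pb], by linarith [q.Qt, q'.Qb]⟩
    · intro _
      exact ⟨by linarith [q.Qt, q'.Pb], by linarith [q.Pt, q'.Qb]⟩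
    · obtain ⟨-, c2, -⟩ := blkCr (h.bx hj)
      obtain ⟨c1, -, -⟩ := blkCr (h.bx h1)
      have he := congrArg Complex.im (h.lgr hj)
      rw [Complex.add_im, im_I_mul] at he
      simp only [Complex.add_re, Complex.mul_re, Complex.intCast_re, Complex.intCast_im, zero_mul,
        sub_zero, Complex.re_ofNat, Complex.im_ofNat, Complex.ofReal_re, Complex.ofReal_im] at he
      unfold Fl.cr Fl.tw
      have q1 := q'.Pb
      have q2 := q'.Qb
      linear_combination c1 - c2 - 2 * he - (a ((j + 1) % n) : ℝ) * q1 - (a ((j + 1) % n) : ℝ) * q2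
  · have q := blkAng (h.bx (show 0 < n by omega))
    have q1 := q.TA
    have q2 := q.CAt
    have z0 : (0 / 2 : ℂ).re = 0 := by simp
    rw [z0] at q1 q2
    unfold rlam cf cg cF cG
    linarith
  · have hr : ∀ j ∈ range n, rho (cf z 0 u j) (cg n z 0 u j) (cF z 0 u j) (cG n z 0 u j) =
        (2 * (log (cos (z j / 2))).im - 2 * (log (cos (z ((j + 1) % n) / 2))).im) := by
      intro j hj
      rw [mem_range] at hj
      obtain ⟨-, -, c3⟩ := blkCr (h.bx hj)
      rw [zero_div, lcr0] at c3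
      simp only [add_zero, Complex.zero_im, mul_zero, zero_add] at c3
      unfold rho cf cg cF cG
      simp only [zero_div]
      linarith
    rw [sum_congr rfl hr, sum_sub_distrib,
      sum_succ_mod n hn (fun j => 2 * (log (cos (z j / 2))).im), sub_self]
  · intro f g F G hy
    have h2 : ∑ j ∈ range n, lin n z 0 u f g F G j = 0 := by
      rw [lin_sum hn (fun j hj => h.lgr hj) hy.vert]
      refine sum_eq_zero fun j hj => ?_
      unfold TX
      rw [zero_div, lcr0]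
      simp
    have := max_eq (fun j hj => h.bx hj) hy.pos hy.diag h2
    rw [hvol] at this
    exact this

end Pool.Agent.Y482.Cv
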