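import Pool.Agent.Y482.Cv.Sum
import Pool.Agent.Y482.Cv.Lab
import Pool.Agent.Y482.Cv.Uni
import Pool.Agent.Y482.Cv.Cra
import Pool.Agent.Y482.Ph.Fin

/-!
# The complex volume: closed 3-braids, and closed 3-braids with their axes
-/

set_option autoImplicit false

namespace Pool.Agent.Y482.Cv

open Finset Filter Topology
open Pool.Agent.W711.HT
open Pool.Agent.W719.AR (Fl)
open Pool.Agent.W719.AX (EXY)
open Pool.Agent.Y472 (SD3 RCrit3 RVal3 ftw bw)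
open Pool.Agent.Y481 (wts cw)
open Pool.Agent.Y482.Chi
open Pool.Agent.Y482.Ph (RCrit0 RVal0)
open scoped Real

lemma wts_length (l : List (ℤ × ℤ)) : (wts l).length = 2 * l.length := by
  unfold wts
  induction l with
  | nil => rfl
  | cons p l ih =>
    simp only [List.map_cons, List.flatten_cons, List.length_append, List.length_cons,
      List.length_nil]
    rw [ih]
    ring

lemma wts_sum (l : List (ℤ × ℤ)) : (wts l).sum = ∑ j ∈ range (2 * l.length), cw l j := by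
  rw [← wts_length]
  unfold cw
  generalize wts l = L
  rw [← Fin.sum_univ_getElem L, Finset.sum_range]
  refine sum_congr rfl fun i _ => ?_
  simp

lemma csum_congr {n : ℕ} {f g F G f' g' F' G' : ℕ → Fl} {x : ℕ → Piece}
    (h : ∀ j < n, f j = f' j ∧ g j = g' j ∧ F j = F' j ∧ G j = G' j) :
    csum n f g F G x = csum n f' g' F' G' x := by
  unfold csum
  refine sum_congr rfl fun j hj => ?_
  rw [mem_range] at hj
  obtain ⟨h1, h2, h3, h4⟩ := h j hj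
  rw [h1, h2, h3, h4]

lemma split_v (v : ℂ) : ((2 * π * v.re : ℝ) : ℂ) + Complex.I * ((2 * π * v.im : ℝ) : ℂ) =
    2 * π * v := by
  have e := Complex.re_add_im v
  push_cast
  linear_combination (2 * π : ℂ) * e

lemma split_v' (v : ℂ) : (((2 * π * v.re : ℝ) : ℂ) + Complex.I * ((2 * π * v.im : ℝ) : ℂ)) /
    (2 * π) = v := by
  have hpi : (π : ℂ) ≠ 0 := Complex.ofReal_ne_zero.2 Real.pi_ne_zero
  rw [split_v]
  field_simp

lemma sub_phase_re (x : ℂ) (s : ℤ) : (x - π * Complex.I / 4 * s).re = x.re := by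
  have : (π * Complex.I / 4 * (s : ℂ)) = ((π / 4 * s : ℝ) : ℂ) * Complex.I := by
    push_cast
    ring
  rw [Complex.sub_re, this, Complex.re_ofReal_mul, Complex.I_re, mul_zero, sub_zero]

/-- closed braids -/
theorem fin_closed : ∀ k : ℕ, 1 ≤ k → ∃ M : ℝ, ∀ (ls : List (ℤ × ℤ)) (m : ℤ), ls.length = k →
    (∀ p ∈ ls, M ≤ |(p.1 : ℝ)| ∧ M ≤ |(p.2 : ℝ)|) → M ≤ |(m : ℝ)| →
    ∃ (V C : ℝ) (y : ℕ → ℂ),
      IsGreatest {W : ℝ | ∃ f g F G : ℕ → Fl, ChiAng (2 * k) (cw ls) m f g F G ∧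
        chiVol (2 * k) f g F G = W} V ∧
      (∃ x, RFlat (2 * k) (cw ls) (-2) x) ∧
      (∀ (f g F G : ℕ → Fl) (x : ℕ → Piece), ChiAng (2 * k) (cw ls) m f g F G →
        chiVol (2 * k) f g F G = V → RFlat (2 * k) (cw ls) (-2) x → ∃ j : ℤ,
        csum (2 * k) f g F G x = Complex.I * (V + Complex.I * C) + j * (π : ℂ) ^ 2) ∧
      y 0 ≠ 0 ∧ EXY (fun N => Pool.Agent.H550R3.Jones.cjones N 2 (ftw m ++ bw ls) (vN N))
        ((V + Complex.I * C) / (2 * π)) y := by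
  obtain ⟨ρ₀, c, C, s, dl, hS, H⟩ := Pool.Agent.Y482.Ph.mx
  intro k hk
  obtain ⟨M, hM⟩ := H k hk
  refine ⟨M, fun ls m hl hls hm => ?_⟩
  obtain ⟨z, χ, y, hz, hχ, hy, hE⟩ := hM ls m hl hls hm
  have hn : 1 ≤ 2 * k := by omega
  have hg := geox3 hS hn hz hχ
  have hsum : ((wts ls).sum : ℂ) = ∑ j ∈ range (2 * k), (cw ls j : ℂ) := by
    rw [wts_sum, hl]
    push_cast
    rfl
  have hX := crit_of hS hn hz hχ
  have hval := val_of Pool.Agent.W583.HTP.poth hS hn hz hχ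
  refine ⟨2 * π * (RVal3 s (2 * k) (cw ls) m z χ - π * Complex.I / 4 * (wts ls).sum).re,
    2 * π * (RVal3 s (2 * k) (cw ls) m z χ - π * Complex.I / 4 * (wts ls).sum).im, y, ?_,
    ⟨_, exists_flat (2 * k) hn (cw ls) (-2)⟩, ?_, hy, ?_⟩
  · rw [sub_phase_re]
    exact hg
  · intro f g F G x hA hV hx
    have hu := uni (2 * k) (cw ls) m z χ _ hn hX f g F G hA (by
      rw [hV, sub_phase_re, hval])
    rw [csum_congr hu]
    obtain ⟨j, hj⟩ := csum_crit hS hn hz hχ hx rfl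
    refine ⟨j, ?_⟩
    rw [hj, split_v, hsum]
    ring
  · rw [split_v']
    exact hE

/-- closed braids with their axes -/
theorem fin_axis : ∀ k : ℕ, 1 ≤ k → ∃ M : ℝ, ∀ (ls : List (ℤ × ℤ)) (m : ℤ), ls.length = k →
    (∀ p ∈ ls, M ≤ |(p.1 : ℝ)| ∧ M ≤ |(p.2 : ℝ)|) →
    ∃ (V C : ℝ) (y : ℕ → ℂ),
      IsGreatest {W : ℝ | ∃ f g F G : ℕ → Fl, AxAng (2 * k) (cw ls) f g F G ∧
        chiVol (2 * k) f g F G = W} V ∧
      (∃ x, RFlat (2 * k) (cw ls) 0 x) ∧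
      (∀ (f g F G : ℕ → Fl) (x : ℕ → Piece), AxAng (2 * k) (cw ls) f g F G →
        chiVol (2 * k) f g F G = V → RFlat (2 * k) (cw ls) 0 x → ∃ j : ℤ,
        csum (2 * k) f g F G x = Complex.I * (V + Complex.I * C) + j * (π : ℂ) ^ 2) ∧
      y 0 ≠ 0 ∧ EXY (fun N => (Pool.Agent.W715.VC.rep3 N (ftw m ++ bw ls)).trace)
        ((V + Complex.I * C) / (2 * π)) y := by
  obtain ⟨ρ₀, c, C, s, dl, hS, H⟩ := Pool.Agent.Y482.Ph.mxa
  intro k hk
  obtain ⟨M, hM⟩ := H k hk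
  refine ⟨M, fun ls m hl hls => ?_⟩
  obtain ⟨z, y, hz, hy, hE⟩ := hM ls m hl hls
  have hn : 1 ≤ 2 * k := by omega
  obtain ⟨hX, hval⟩ := cra ρ₀ c C s dl hS (2 * k) (cw ls) z hn hz
  obtain ⟨g1, g2, g3⟩ := geoa8 (2 * k) (cw ls) z _ hn hX
  have hsum : ((wts ls).sum : ℂ) = ∑ j ∈ range (2 * k), (cw ls j : ℂ) := by
    rw [wts_sum, hl]
    push_cast
    rfl
  refine ⟨2 * π * (RVal0 s (2 * k) (cw ls) z - π * Complex.I / 4 * (wts ls).sum).re,
    2 * π * (RVal0 s (2 * k) (cw ls) z - π * Complex.I / 4 * (wts ls).sum).im, y, ?_,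
    ⟨_, exists_flat (2 * k) hn (cw ls) 0⟩, ?_, hy, ?_⟩
  · rw [sub_phase_re, hval]
    refine ⟨⟨_, _, _, _, g1, g2⟩, ?_⟩
    rintro W ⟨f, g, F, G, hA, rfl⟩
    exact (g3 f g F G hA).1
  · intro f g F G x hA hV hx
    have hu := (g3 f g F G hA).2 (by rw [hV, sub_phase_re, hval])
    rw [csum_congr hu]
    obtain ⟨j, hj⟩ := csum_crit0 hS hn hz hX hx rfl
    refine ⟨j, ?_⟩
    rw [hj, split_v, hsum]
    ring
  · rw [split_v']
    exact hE

end Pool.Agent.Y482.Cv
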