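import Pool.Agent.Y482.Cv.RayZ
import Pool.Agent.Y482.Cv.Fin

/-!
# Complex volume near `(0, 0, χ₀)`: uniqueness of the structure, sums around the ring
-/

set_option autoImplicit false

namespace Pool.Agent.Y482.Cv

open Finset
open Complex (exp log cos sin I)
open Pool.Agent.W711.HT
open Pool.Agent.W719.AR (Fl)
open Pool.Agent.W737.AR (vol_le)
open Pool.Agent.TH563.CU (vol_eq)
open Pool.Agent.Y482 (sum_succ_mod)
open Pool.Agent.Y482.Chi hiding tri_a1 tri_a2 tri_b1 tri_b2 blkAng blkCr blk_lf dvol crit_ang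
  crit_vol crit_max
open Pool.Agent.Y472 (SDZ S_S0P RCritZ RVal3 Rz Zr)
open Pool.Agent.Y482.Cz (BG CritZ Near)
open scoped Real

section
variable {n : ℕ} {a : ℕ → ℤ} {m : ℤ} {z : ℕ → ℂ} {χ : ℂ} {u : ℕ → ℂ} {f g F G : ℕ → Fl}

/-- the volume at an edge -/
lemma block_leZ {j : ℕ} (hB : BG (u j / 2) (z j / 2) (z ((j + 1) % n) / 2) (χ / 2))
    (p : (f j).Pos ∧ (g j).Pos ∧ (F j).Pos ∧ (G j).Pos)
    (d : (f j).b + (f j).c' + ((g j).b + (g j).c') = 2 * π ∧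
      (F j).b + (F j).c' + ((G j).b + (G j).c') = 2 * π) :
    0 ≤ (cf z χ u j).vol + (cg n z χ u j).vol + (cF z χ u j).vol + (cG n z χ u j).vol -
      lin n z χ u f g F G j - ((f j).vol + (g j).vol + (F j).vol + (G j).vol) ∧
    ((cf z χ u j).vol + (cg n z χ u j).vol + (cF z χ u j).vol + (cG n z χ u j).vol -
      lin n z χ u f g F G j - ((f j).vol + (g j).vol + (F j).vol + (G j).vol) = 0 →
      f j = cf z χ u j ∧ g j = cg n z χ u j ∧ F j = cF z χ u j ∧ G j = cG n z χ u j) := by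
  obtain ⟨p1, p2, p3, p4⟩ := p
  obtain ⟨d1, d2⟩ := d
  obtain ⟨b1, b2, b3, b4⟩ := hB.pos
  have key := Cz.blk_lf hB p1 p2 p3 p4 d1 d2
  have v1 := vol_le Pool.Agent.W120.VC.tet _ (f j) b1 p1
  have v2 := vol_le Pool.Agent.W120.VC.tet _ (g j) b2 p2
  have v3 := vol_le Pool.Agent.W120.VC.tet _ (F j) b3 p3
  have v4 := vol_le Pool.Agent.W120.VC.tet _ (G j) b4 p4
  unfold lin cf cg cF cG
  refine ⟨by linarith, fun h => ⟨?_, ?_, ?_, ?_⟩⟩
  · exact vol_eq _ _ b1 p1 (by linarith)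
  · exact vol_eq _ _ b2 p2 (by linarith)
  · exact vol_eq _ _ b3 p3 (by linarith)
  · exact vol_eq _ _ b4 p4 (by linarith)

/-- the case of equality -/
lemma max_eqZ (hB : ∀ j < n, BG (u j / 2) (z j / 2) (z ((j + 1) % n) / 2) (χ / 2))
    (p : ∀ j < n, (f j).Pos ∧ (g j).Pos ∧ (F j).Pos ∧ (G j).Pos)
    (d : ∀ j < n, (f j).b + (f j).c' + ((g j).b + (g j).c') = 2 * π ∧
      (F j).b + (F j).c' + ((G j).b + (G j).c') = 2 * π)
    (hl : ∑ j ∈ range n, lin n z χ u f g F G j = 0)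
    (h : chiVol n (cf z χ u) (cg n z χ u) (cF z χ u) (cG n z χ u) ≤ chiVol n f g F G) :
      ∀ j < n, f j = cf z χ u j ∧ g j = cg n z χ u j ∧ F j = cF z χ u j ∧ G j = cG n z χ u j := by
  have hnn : ∀ j ∈ range n, 0 ≤ (cf z χ u j).vol + (cg n z χ u j).vol + (cF z χ u j).vol +
      (cG n z χ u j).vol - lin n z χ u f g F G j -
      ((f j).vol + (g j).vol + (F j).vol + (G j).vol) := by
    intro j hj
    rw [mem_range] at hj
    exact (block_leZ (hB j hj) (p j hj) (d j hj)).1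
  have e : ∑ j ∈ range n, ((cf z χ u j).vol + (cg n z χ u j).vol + (cF z χ u j).vol +
      (cG n z χ u j).vol - lin n z χ u f g F G j -
      ((f j).vol + (g j).vol + (F j).vol + (G j).vol)) =
      chiVol n (cf z χ u) (cg n z χ u) (cF z χ u) (cG n z χ u) - chiVol n f g F G := by
    unfold chiVol
    rw [sum_sub_distrib, sum_sub_distrib, hl, sub_zero]
  have h0 := sum_nonneg hnn
  intro j hj
  have h1 := (sum_eq_zero_iff_of_nonneg hnn).1 (by linarith) j (mem_range.2 hj)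
  exact (block_leZ (hB j hj) (p j hj) (d j hj)).2 h1

theorem uniz (hn : 1 ≤ n) (h : CritZ n a m z χ u) (hy : ChiAng n a m f g F G)
    (hle : ∑ j ∈ range n, bv (u j / 2) (z j / 2) (z ((j + 1) % n) / 2) (χ / 2) ≤
      chiVol n f g F G) :
    ∀ j < n, f j = cf z χ u j ∧ g j = cg n z χ u j ∧ F j = cF z χ u j ∧ G j = cG n z χ u j := by
  have hR := rlam_const hy.pos hy.diag hy.vert
  have h2 : ∑ j ∈ range n, lin n z χ u f g F G j = 0 := by
    rw [lin_sum hn (fun j hj => h.lgr hj) hy.vert]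
    have e2 : ∀ j ∈ range n, TX (u j / 2) (z j / 2) (z ((j + 1) % n) / 2) (χ / 2) (f j) (g j) (F j)
        (G j) = (Chi.lcr (u j / 2) (χ / 2)).re *
          ((rlam (f 0) (g 0) (F 0) (G 0) - 4 * (χ / 2).re) / 2) +
        (-(χ / 2).im) * (rho (f j) (g j) (F j) (G j)) +
        (-2 * (χ / 2).im) * (Chi.lcr (u j / 2) (χ / 2)).im +
        ((χ / 2).im * (2 * (log (cos (z j / 2 + χ / 2))).im) -
        (χ / 2).im * (2 * (log (cos (z ((j + 1) % n) / 2 + χ / 2))).im)) := by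
      intro j hj
      rw [mem_range] at hj
      have := hR j hj
      rw [← this]
      unfold TX rlam rho
      ring
    rw [sum_congr rfl e2, sum_add_distrib, sum_add_distrib, sum_add_distrib, sum_sub_distrib,
      sum_succ_mod n hn (fun j => (χ / 2).im * (2 * (log (cos (z j / 2 + χ / 2))).im)), sub_self,
      add_zero, ← sum_mul, ← mul_sum, ← mul_sum, hy.fill]
    have he := congrArg Complex.im h.lcr
    have hf := congrArg Complex.re h.lcr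
    rw [Complex.im_sum, im_I_mul] at he
    rw [Complex.re_sum, re_I_mul] at hf
    have g1 : (2 * (m : ℂ) * (2 * (χ / 2)) + 2 * π).re = 2 * m * (2 * (χ / 2).re) + 2 * π := by
      simp
    have g2 : (2 * (m : ℂ) * (2 * (χ / 2)) + 2 * π).im = 2 * m * (2 * (χ / 2).im) := by
      simp
    rw [g1] at he
    rw [g2] at hf
    rw [← he, ← hf]
    ring
  exact max_eqZ h.bz hy.pos hy.diag h2 hle

end

section
variable {χ₀ : ℂ} {ρ₀ c C : ℝ} {s dl : ℂ → ℂ → ℂ → ℂ}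

/-- closed braids, near `χ₀` -/
theorem csum_critZ (hS0 : S_S0P) (hS : SDZ χ₀ ρ₀ c C s dl) {ε : ℝ} (hN : Near χ₀ ε)
    {n : ℕ} (hn : 1 ≤ n) {a : ℕ → ℤ} {m : ℤ} {z : ℕ → ℂ} {χ : ℂ}
    (h : RCritZ s χ₀ ρ₀ n a m z χ) (hz : ∀ j < n, ‖z j‖ ≤ ε) (hχ : ‖χ - χ₀‖ ≤ ε) {x : ℕ → Piece}
    (hx : RFlat n a (-2) x) {u : ℕ → ℂ} (hu : u = fun j => 2 * π * dl (z j) (z ((j + 1) % n)) χ) :
    ∃ k : ℤ, csum n (cf z χ u) (cg n z χ u) (cF z χ u) (cG n z χ u) x =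
      2 * π * I * (RVal3 s n a m z χ - π * I / 4 * ∑ j ∈ range n, (a j : ℂ)) +
        k * (π : ℂ) ^ 2 := by
  have hpi : (π : ℂ) ≠ 0 := Complex.ofReal_ne_zero.2 Real.pi_ne_zero
  obtain ⟨Λ, hΛ⟩ := Cz.ex_prim
  have hX := Cz.crit_of hS0 hS hΛ hN hn h hz hχ
  rw [← hu] at hX
  obtain ⟨mc, hv, ha⟩ := h
  obtain ⟨Θ, hΘ⟩ := blkz hS0
  obtain ⟨k, hk⟩ := csum_gen (Θ := Θ) hn (a := a) (z := z) (u := u)
    (sv := fun j => s (z j) (z ((j + 1) % n)) χ) (χ := χ) (fun j hj => hX.bz j hj)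
    (fun j hj => hΘ χ₀ ε hN ρ₀ c C s dl hS (z j) (z ((j + 1) % n)) χ (hv j hj).1
      (hv _ (Nat.mod_lt _ (by omega))).1 mc (hz j hj) (hz _ (Nat.mod_lt _ (by omega))) hχ (u j)
      (by rw [hu])) hX.vert hx
  refine ⟨k, ?_⟩
  rw [hk, ← hX.axis]
  unfold RVal3
  push_cast
  field_simp
  linear_combination (-(8 * π * χ) + 4 * (π : ℂ) ^ 2 * ∑ j ∈ range n, (a j : ℂ)) * Complex.I_sq

end

/-- near `χ₀`: the complex volume of a critical configuration -/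
theorem cvz (hS0 : S_S0P) : ∀ χ₀ : ℂ, Zr χ₀ → ∃ ε : ℝ, 0 < ε ∧
    ∀ (ρ₀ c C : ℝ) (s dl : ℂ → ℂ → ℂ → ℂ), SDZ χ₀ ρ₀ c C s dl → ∀ (n : ℕ) (a : ℕ → ℤ) (m : ℤ)
      (z : ℕ → ℂ) (χ : ℂ), 1 ≤ n → RCritZ s χ₀ ρ₀ n a m z χ → (∀ j < n, ‖z j‖ ≤ ε) →
      ‖χ - χ₀‖ ≤ ε →
    IsGreatest {W : ℝ | ∃ f g F G : ℕ → Fl, ChiAng n a m f g F G ∧ chiVol n f g F G = W}
      (2 * π * (RVal3 s n a m z χ).re) ∧
    ∀ (f g F G : ℕ → Fl) (x : ℕ → Piece), ChiAng n a m f g F G →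
      chiVol n f g F G = 2 * π * (RVal3 s n a m z χ).re → RFlat n a (-2) x → ∃ k : ℤ,
      csum n f g F G x =
        2 * π * I * (RVal3 s n a m z χ - π * I / 4 * ∑ j ∈ range n, (a j : ℂ)) +
          k * (π : ℂ) ^ 2 := by
  intro χ₀ hZ
  obtain ⟨ε, hε, hN⟩ := Cz.near hZ
  obtain ⟨Λ, hΛ⟩ := Cz.ex_prim
  refine ⟨ε, hε, ?_⟩
  intro ρ₀ c C s dl hS n a m z χ hn h hz hχ
  have hX := Cz.crit_of hS0 hS hΛ hN hn h hz hχ
  have hval := Cz.val_of hS0 hS hΛ hN hn h hz hχ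
  refine ⟨?_, ?_⟩
  · rw [hval]
    exact Cz.geow Pool.Agent.W120.VC.tet hn hX
  · intro f g F G x hA hV hx
    have hu := uniz hn hX hA (by rw [hV, hval])
    rw [csum_congr hu]
    exact csum_critZ hS0 hS hN hn h hz hχ hx rfl

end Pool.Agent.Y482.Cv
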