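import Pool.Agent.Y482.Cv.Stmt
import Pool.Agent.Y482.Cz.Blk

/-!
# The term of a block
-/

set_option autoImplicit false

namespace Pool.Agent.Y482.Cv

open Complex (exp log cos sin I)
open Pool.Agent.TH563.CV (rog)
open Pool.Agent.W711.HT (Lg)
open Pool.Agent.W719.AR (Fl)
open Pool.Agent.Y482.Chi
open Pool.Agent.Y482.Cz (BG)
open scoped Real

/-- linear algebra of the labels -/
theorem t_alg (sa sp sm Cp Cm Dp Dm kb kd K K' U Ut a b d c h J : ℂ)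
    (Fa Fb Fc Ba Ga Gb Gc Ha : ℂ)
    (r1 : Dm = 2 * sa + sp + sm - Cp - Cm - Dp) (r2 : Ut = U + sa + sm - J * c - Cp - Cm)
    (e1 : Ga = Fa + Fb + Ba + 1 - Ha - 2 * Gb - Fc) (e2 : Gc = 2 - Fb - Fc - Gb) :
    (Fa * (h + Cp + J * b - sa) - Fb * (kb + J * a - Cp)) +
    ((1 - Fa - Fb) * (K + J * a + J * c - Cm) - (Fa + Fb - Fc) * (h + sp - J * a + J * b - K)) +
    ((Ga * (h + Dm - J * d - sa) - Gb * (kd + J * a - Dm)) +
    ((1 - Ga - Gb) * (K' + J * a - J * c - Dp) - (Ga + Gb - Gc) * (h + sm - J * a - J * d - K'))) +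
    ((Ba * (h + J * b + Cp + K - kb - sp) - Fb * (U - Cp - K)) +
    ((1 - Ba - Fb) * (U - J * c - Cm - kb) - (Ba + Fb - Fc) * (h + sa + J * b + K - U)) +
    ((Ha * (h - J * d + Dm + K' - kd - sm) - Gb * (Ut - Dm - K')) +
    ((1 - Ha - Gb) * (Ut + J * c - Dp - kd) - (Ha + Gb - Gc) * (h + sa - J * d + K' - Ut)))) +
    (((kb + J * a - Cp) - (K + J * a + J * c - Cm) +
      ((kd + J * a - Dm) - (K' + J * a - J * c - Dp)) +
      ((U - Cp - K) - (U - J * c - Cm - kb) +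
      ((Ut - Dm - K') - (Ut + J * c - Dp - kd)))) / 2) =
    2 * J * b * (Fc - Fb) - 2 * J * d * (Gc - Gb) - 2 * J * c * (Fa + Fb - Ga - Gb) +
      4 * h * (1 - Fb - Gb) := by
  subst e1 e2 r1 r2
  ring

section
variable {a b d c : ℂ}

/-- the term of a block -/
theorem term_sum (h : BG a b d c) (x : Piece) (h1 : x.Inner) (h2 : x.Bottom) (h3 : x.Top) :
    ∃ k : ℤ, x.term (flA a b c) (flA a (-d) (-c)) (flB a b c) (flB a (-d) (-c)) =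
      S8 a b d c - π * I / 4 * E8 a b d c - π * (b * x.low - d * x.high - c * x.along) +
        (π : ℂ) ^ 2 / 2 * (1 + bit x.n1 x.n2 x.n3 x.n4 + bit x.n3 x.n2 x.n1 x.n4) +
        k * (π : ℂ) ^ 2 := by
  obtain ⟨⟨fa, fb, fc, fa', fb', fc'⟩, ⟨ga, gb, gc, ga', gb', gc'⟩, ⟨Fa, Fb, Fc, Fa', Fb', Fc'⟩,
    ⟨Ga, Gb, Gc, Ga', Gb', Gc'⟩, n1, n2, n3, n4⟩ := x
  obtain ⟨⟨i1, i2⟩, ⟨i3, i4⟩, ⟨i5, i6⟩, ⟨i7, i8⟩, i9, i10, n12, n13, n14, n23, n24, n34⟩ := h1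
  obtain ⟨b1, b2, b3, b4, b5, b6, b7, b8⟩ := h2
  obtain ⟨t1, t2, t3, t4, t5, t6, t7, t8⟩ := h3
  simp only at i1 i2 i3 i4 i5 i6 i7 i8 i9 i10 n12 n13 n14 n23 n24 n34
  simp only at b1 b2 b3 b4 b5 b6 b7 b8 t1 t2 t3 t4 t5 t6 t7 t8
  obtain rfl : fc = 1 - fa - fb := by omega
  obtain rfl : fa' = 1 - fa - fb := by omega
  obtain rfl : fb' = fa + fb - fc' := by omega
  obtain rfl : Fb = fb := by omega
  obtain rfl : Fc' = fc' := by omega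
  obtain rfl : Fc = 1 - Fa - Fb := by omega
  obtain rfl : Fa' = 1 - Fa - Fb := by omega
  obtain rfl : Fb' = Fa + Fb - Fc' := by omega
  obtain rfl : gc = 1 - ga - gb := by omega
  obtain rfl : ga' = 1 - ga - gb := by omega
  obtain rfl : gb' = ga + gb - gc' := by omega
  obtain rfl : Gb = gb := by omega
  obtain rfl : Gc' = gc' := by omega
  obtain rfl : Gc = 1 - Ga - Gb := by omega
  obtain rfl : Ga' = 1 - Ga - Gb := by omega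
  obtain rfl : Gb' = Ga + Gb - Gc' := by omega
  obtain ⟨k, hk⟩ := core fa Fb Fc' Fa ga Gb Gc' Ga n1 n2 n3 n4 n12 n13 n14 n23 n24 n34 (by omega)
    (by omega)
  have e1 : (ga : ℂ) = fa + Fb + Fa + 1 - Ga - 2 * Gb - Fc' := by
    have : ga = fa + Fb + Fa + 1 - Ga - 2 * Gb - Fc' := by omega
    exact_mod_cast this
  have e2 : (Gc' : ℂ) = 2 - Fb - Fc' - Gb := by
    have : Gc' = 2 - Fb - Fc' - Gb := by omega
    exact_mod_cast this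
  refine ⟨k - (1 - Fb - Gb), ?_⟩
  have hk' := congrArg (fun z : ℤ => (z : ℂ)) hk
  push_cast at hk'
  have q1 := tet_eq h.ta1 i1 n1 n2 n3
  have q2 := tet_eq h.ta2 i2 n1 n3 n4
  have q3 := tet_eq h.ua1 i3 n3 n2 n1
  have q4 := tet_eq h.ua2 i4 n3 n1 n4
  have q5 := tet_eq h.tb1 i5 n2 n1 n4
  have q6 := tet_eq h.tb2 i6 n2 n4 n3
  have q7 := tet_eq h.ub1 i7 n2 n3 n4
  have q8 := tet_eq h.ub2 i8 n2 n4 n1
  simp only [Piece.term, two, flA, flB, flE, Piece.low, Piece.high, Piece.along]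
  rw [q1, q2, q3, q4, q5, q6, q7, q8]
  have T := t_alg (log (sin a)) (log (sin (a + c))) (log (sin (a - c))) (log (cos (a + b)))
    (log (cos (a - b))) (log (cos (a + d))) (log (cos (a - d))) (log (cos b)) (log (cos d))
    (log (cos (b + c))) (log (cos (d + c))) (ups a b c) (ups a (-d) (-c)) a b d c (I * (π / 2)) I
    fa Fb Fc' Fa ga Gb Gc' Ga (by linear_combination h.r1) (by linear_combination h.r2) e1 e2
  obtain ⟨u1, u2, u3, u4, u5, u6, u7, u8⟩ := top_eq a d c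
  unfold S8 E8 bit
  simp only [rp, u1, u2, u3, u4, u5, u6, u7, u8]
  simp only [aA1, aB1, aA2, aB2, bA1, bB1, bA2, bB2]
  push_cast
  linear_combination (π * I / 2) * T + (π : ℂ) ^ 2 / 6 * hk' +
    (π * (-(fa * c) - b * Fb + b * Fc' - Fb * c + c * ga + c * Gb + d * Gb - d * Gc') +
      (π : ℂ) ^ 2 * (1 - Fb - Gb)) * Complex.I_sq

/-- the term of a block in terms of the exponent -/
theorem term_eq {Θ : ℂ → ℂ} {ψ ψ' χ u s : ℂ} (h : BG (u / 2) (ψ / 2) (ψ' / 2) (χ / 2))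
    (hs : S8 (u / 2) (ψ / 2) (ψ' / 2) (χ / 2) = 2 * π * I * s +
      I / 2 * (ψ * Lg u ψ + ψ' * Lg u ψ' + χ * Lc u χ) -
      (Θ (ψ / 2) - Θ (ψ / 2 + χ / 2) - (Θ (ψ' / 2) - Θ (ψ' / 2 + χ / 2))) +
      π * I / 4 * E8 (u / 2) (ψ / 2) (ψ' / 2) (χ / 2) - (π : ℂ) ^ 2 / 2) (x : Piece)
    (h1 : x.Inner) (h2 : x.Bottom) (h3 : x.Top) :
    ∃ k : ℤ, x.term (flA (u / 2) (ψ / 2) (χ / 2)) (flA (u / 2) (-(ψ' / 2)) (-(χ / 2)))
        (flB (u / 2) (ψ / 2) (χ / 2)) (flB (u / 2) (-(ψ' / 2)) (-(χ / 2))) =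
      2 * π * I * s + I / 2 * (ψ * Lg u ψ + ψ' * Lg u ψ' + χ * Lc u χ) -
        (Θ (ψ / 2) - Θ (ψ / 2 + χ / 2) - (Θ (ψ' / 2) - Θ (ψ' / 2 + χ / 2))) -
        π / 2 * (ψ * x.low - ψ' * x.high - χ * x.along) +
        (π : ℂ) ^ 2 / 2 * (bit x.n1 x.n2 x.n3 x.n4 + bit x.n3 x.n2 x.n1 x.n4) +
        k * (π : ℂ) ^ 2 := by
  obtain ⟨k, hk⟩ := term_sum h x h1 h2 h3
  refine ⟨k, ?_⟩
  rw [hk, hs]
  ring

end

end Pool.Agent.Y482.Cv
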