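import Pool.Agent.Y482.Cv.Ray
import Pool.Agent.Y482.Cv.Term

/-!
# The sum of the dilogarithms
-/

set_option autoImplicit false

namespace Pool.Agent.Y482.Cv

open Finset
open Complex (exp log cos sin I)
open Pool.Agent.TH563.CV (rog)
open Pool.Agent.W711.HT
open Pool.Agent.W719.AR (Fl)
open Pool.Agent.Y472 (SD3 RCrit3 RVal3)
open Pool.Agent.Y482 (sum_succ_mod)
open Pool.Agent.Y482.Chi
open Pool.Agent.Y482.Cz (BG)
open Pool.Agent.Y482.Ph (RCrit0 RVal0)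
open scoped Real

/-! ### Orders -/

/-- the orders at the lower circle -/
def lowb (x : Piece) : ℤ := (if x.n2 < x.n1 then 1 else 0) + (if x.n3 < x.n4 then 1 else 0)

/-- the orders at the upper circle -/
def upb (x : Piece) : ℤ := (if x.n2 < x.n3 then 1 else 0) + (if x.n1 < x.n4 then 1 else 0)

lemma bits (x : Piece) (h : x.Inner) :
    (2 : ℤ) ∣ bit x.n1 x.n2 x.n3 x.n4 + bit x.n3 x.n2 x.n1 x.n4 - (upb x + lowb x) := by
  obtain ⟨-, -, -, -, -, -, n12, n13, n14, n23, n24, n34⟩ := h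
  have t21 : x.n1 < x.n2 ↔ ¬ x.n2 < x.n1 := by omega
  have t31 : x.n3 < x.n2 ↔ ¬ x.n2 < x.n3 := by omega
  have t41 : x.n4 < x.n1 ↔ ¬ x.n1 < x.n4 := by omega
  have t32 : x.n4 < x.n3 ↔ ¬ x.n3 < x.n4 := by omega
  unfold bit upb lowb
  simp only [t21, t31, t41, t32]
  by_cases s1 : x.n2 < x.n1 <;> by_cases s2 : x.n3 < x.n4 <;> by_cases s3 : x.n2 < x.n3 <;>
    by_cases s4 : x.n1 < x.n4 <;> simp [s1, s2, s3, s4]

lemma circ_bits {w : ℤ} {x y : Piece} (h : CircFlat w x y) (hy : y.Inner) :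
    (2 : ℤ) ∣ upb x + lowb y - w := by
  obtain ⟨-, -, -, -, -, -, n12, n13, n14, n23, n24, n34⟩ := hy
  have t21 : y.n1 < y.n2 ↔ ¬ y.n2 < y.n1 := by omega
  unfold upb lowb
  simp only [h.out]
  rcases Int.even_or_odd w with hw | hw
  · simp only [h.even hw]
    obtain ⟨r, rfl⟩ := hw
    split_ifs <;> omega
  · simp only [h.odd hw, t21]
    obtain ⟨r, rfl⟩ := hw
    split_ifs <;> omega

lemma sum_bits {n : ℕ} (hn : 1 ≤ n) {a : ℕ → ℤ} {c : ℤ} {x : ℕ → Piece} (h : RFlat n a c x) :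
    (2 : ℤ) ∣ ∑ j ∈ range n, (bit (x j).n1 (x j).n2 (x j).n3 (x j).n4 +
      bit (x j).n3 (x j).n2 (x j).n1 (x j).n4) - ∑ j ∈ range n, a j := by
  have e1 : ∑ j ∈ range n, (bit (x j).n1 (x j).n2 (x j).n3 (x j).n4 +
      bit (x j).n3 (x j).n2 (x j).n1 (x j).n4) - ∑ j ∈ range n, a j =
      ∑ j ∈ range n, (bit (x j).n1 (x j).n2 (x j).n3 (x j).n4 +
        bit (x j).n3 (x j).n2 (x j).n1 (x j).n4 - (upb (x j) + lowb (x j))) +
      ∑ j ∈ range n, (upb (x j) + lowb (x ((j + 1) % n)) - a ((j + 1) % n)) := by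
    have s1 := sum_succ_mod n hn (fun j => lowb (x j))
    have s2 := sum_succ_mod n hn (fun j => a j)
    simp only [sum_sub_distrib, sum_add_distrib]
    rw [s1, s2]
    ring
  rw [e1]
  refine dvd_add (dvd_sum fun j hj => ?_) (dvd_sum fun j hj => ?_)
  · rw [mem_range] at hj
    exact bits _ (h.inner j hj).1
  · rw [mem_range] at hj
    exact circ_bits (h.vert j hj) (h.inner _ (Nat.mod_lt _ (by omega))).1

/-! ### Sums -/

lemma sum_mod {n : ℕ} {f g : ℕ → ℂ} {p : ℂ} (h : ∀ j < n, ∃ k : ℤ, f j = g j + k * p) :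
    ∃ k : ℤ, ∑ j ∈ range n, f j = ∑ j ∈ range n, g j + k * p := by
  induction n with
  | zero => exact ⟨0, by simp⟩
  | succ n ih =>
    obtain ⟨k, hk⟩ := ih fun j hj => h j (by omega)
    obtain ⟨l, hl⟩ := h n (by omega)
    refine ⟨k + l, ?_⟩
    rw [sum_range_succ, sum_range_succ, hk, hl]
    push_cast
    ring

theorem csum_gen {Θ : ℂ → ℂ} {n : ℕ} (hn : 1 ≤ n) {a : ℕ → ℤ} {z u sv : ℕ → ℂ} {χ : ℂ}
    (hb : ∀ j < n, BG (u j / 2) (z j / 2) (z ((j + 1) % n) / 2) (χ / 2))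
    (hs : ∀ j < n, S8 (u j / 2) (z j / 2) (z ((j + 1) % n) / 2) (χ / 2) = 2 * π * I * sv j +
      I / 2 * (z j * Lg (u j) (z j) + z ((j + 1) % n) * Lg (u j) (z ((j + 1) % n)) +
        χ * Lc (u j) χ) -
      (Θ (z j / 2) - Θ (z j / 2 + χ / 2) -
        (Θ (z ((j + 1) % n) / 2) - Θ (z ((j + 1) % n) / 2 + χ / 2))) +
      π * I / 4 * E8 (u j / 2) (z j / 2) (z ((j + 1) % n) / 2) (χ / 2) - (π : ℂ) ^ 2 / 2)
    (hv : ∀ j < n, I * (a ((j + 1) % n) * z ((j + 1) % n) + 2 * π) =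
      Lg (u j) (z ((j + 1) % n)) + Lg (u ((j + 1) % n)) (z ((j + 1) % n)))
    {c : ℤ} {x : ℕ → Piece} (hx : RFlat n a c x) :
    ∃ k : ℤ, csum n (cf z χ u) (cg n z χ u) (cF z χ u) (cG n z χ u) x =
      2 * π * I * ∑ j ∈ range n, (I * a j * z j ^ 2 / (4 * π) + I * z j + sv j) +
        I / 2 * χ * ∑ j ∈ range n, Lc (u j) χ + π / 2 * χ * c +
        (π : ℂ) ^ 2 / 2 * ∑ j ∈ range n, (a j : ℂ) + k * (π : ℂ) ^ 2 := by
  have hpi : (π : ℂ) ≠ 0 := Complex.ofReal_ne_zero.2 Real.pi_ne_zero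
  obtain ⟨k, hk⟩ := sum_mod (n := n) (fun j hj => term_eq (hb j hj) (hs j hj) (x j)
    (hx.inner j hj).1 (hx.inner j hj).2.1 (hx.inner j hj).2.2)
  obtain ⟨l, hl⟩ := sum_bits hn hx
  refine ⟨k + l, ?_⟩
  have hl' := congrArg (fun z : ℤ => (z : ℂ)) hl
  push_cast at hl'
  have hax := congrArg (fun z : ℤ => (z : ℂ)) hx.axis
  push_cast at hax
  unfold csum
  have e0 : ∑ j ∈ range n, (x j).term (cf z χ u j) (cg n z χ u j) (cF z χ u j) (cG n z χ u j) =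
      ∑ j ∈ range n, (x j).term (flA (u j / 2) (z j / 2) (χ / 2))
        (flA (u j / 2) (-(z ((j + 1) % n) / 2)) (-(χ / 2))) (flB (u j / 2) (z j / 2) (χ / 2))
        (flB (u j / 2) (-(z ((j + 1) % n) / 2)) (-(χ / 2))) := rfl
  rw [e0, hk]
  -- telescoping
  have t1 := sum_succ_mod n hn (fun j => Θ (z j / 2) - Θ (z j / 2 + χ / 2))
  have t2 := sum_succ_mod n hn (fun j => I / 2 * (z j * Lg (u j) (z j)))
  have t3 := sum_succ_mod n hn (fun j => π / 2 * (z j * ((x j).low : ℂ)))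
  have t4 := sum_succ_mod n hn (fun j => (a j : ℂ) * z j ^ 2)
  have t5 := sum_succ_mod n hn (fun j => z j)
  have v : ∑ j ∈ range n, I / 2 * (z ((j + 1) % n) * Lg (u ((j + 1) % n)) (z ((j + 1) % n))) +
      ∑ j ∈ range n, I / 2 * (z ((j + 1) % n) * Lg (u j) (z ((j + 1) % n))) =
      -(1 / 2) * ∑ j ∈ range n, (a ((j + 1) % n) : ℂ) * z ((j + 1) % n) ^ 2 -
        π * ∑ j ∈ range n, z ((j + 1) % n) := by
    rw [← sum_add_distrib, mul_sum, mul_sum, ← sum_sub_distrib]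
    refine sum_congr rfl fun j hj => ?_
    rw [mem_range] at hj
    linear_combination (-(I / 2) * z ((j + 1) % n)) * hv j hj +
      (1 / 2 * z ((j + 1) % n) * (a ((j + 1) % n) * z ((j + 1) % n) + 2 * π)) * Complex.I_sq
  have w : ∑ j ∈ range n, π / 2 * (z ((j + 1) % n) * ((x ((j + 1) % n)).low : ℂ)) -
      ∑ j ∈ range n, π / 2 * (z ((j + 1) % n) * ((x j).high : ℂ)) =
      π * ∑ j ∈ range n, z ((j + 1) % n) := by
    rw [← sum_sub_distrib, mul_sum]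
    refine sum_congr rfl fun j hj => ?_
    rw [mem_range] at hj
    have := congrArg (fun z : ℤ => (z : ℂ)) (hx.vert j hj).fill
    push_cast at this
    linear_combination (π / 2 * z ((j + 1) % n)) * this
  have S : ∑ j ∈ range n, (2 * π * I * sv j +
        I / 2 * (z j * Lg (u j) (z j) + z ((j + 1) % n) * Lg (u j) (z ((j + 1) % n)) +
          χ * Lc (u j) χ) -
        (Θ (z j / 2) - Θ (z j / 2 + χ / 2) -
          (Θ (z ((j + 1) % n) / 2) - Θ (z ((j + 1) % n) / 2 + χ / 2))) -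
        π / 2 * (z j * (x j).low - z ((j + 1) % n) * (x j).high - χ * (x j).along) +
        (π : ℂ) ^ 2 / 2 * (bit (x j).n1 (x j).n2 (x j).n3 (x j).n4 +
          bit (x j).n3 (x j).n2 (x j).n1 (x j).n4)) =
      2 * π * I * ∑ j ∈ range n, sv j + (∑ j ∈ range n, I / 2 * (z j * Lg (u j) (z j)) +
        ∑ j ∈ range n, I / 2 * (z ((j + 1) % n) * Lg (u j) (z ((j + 1) % n)))) +
        I / 2 * χ * ∑ j ∈ range n, Lc (u j) χ -
        (∑ j ∈ range n, (Θ (z j / 2) - Θ (z j / 2 + χ / 2)) -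
          ∑ j ∈ range n, (Θ (z ((j + 1) % n) / 2) - Θ (z ((j + 1) % n) / 2 + χ / 2))) -
        (∑ j ∈ range n, π / 2 * (z j * ((x j).low : ℂ)) -
          ∑ j ∈ range n, π / 2 * (z ((j + 1) % n) * ((x j).high : ℂ))) +
        π / 2 * χ * ∑ j ∈ range n, ((x j).along : ℂ) +
        (π : ℂ) ^ 2 / 2 * ∑ j ∈ range n, ((bit (x j).n1 (x j).n2 (x j).n3 (x j).n4 : ℂ) +
          bit (x j).n3 (x j).n2 (x j).n1 (x j).n4) := by
    rw [mul_sum, mul_sum, mul_sum, mul_sum, ← sum_add_distrib, ← sum_add_distrib,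
      ← sum_add_distrib, ← sum_sub_distrib, ← sum_sub_distrib, ← sum_sub_distrib,
      ← sum_sub_distrib, ← sum_add_distrib, ← sum_add_distrib]
    refine sum_congr rfl fun j _ => ?_
    ring
  rw [S, ← t2, v, ← t1, sub_self, ← t3, w, hax, t4, t5]
  have e5 : 2 * π * I * ∑ j ∈ range n, (I * a j * z j ^ 2 / (4 * π) + I * z j + sv j) =
      -(1 / 2) * ∑ j ∈ range n, (a j : ℂ) * z j ^ 2 - 2 * π * ∑ j ∈ range n, z j +
        2 * π * I * ∑ j ∈ range n, sv j := by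
    rw [mul_sum, mul_sum, mul_sum, mul_sum, ← sum_sub_distrib, ← sum_add_distrib]
    refine sum_congr rfl fun j _ => ?_
    field_simp
    linear_combination (4 * ((a j : ℂ) * z j ^ 2 + 4 * π * z j)) * Complex.I_sq
  rw [e5]
  push_cast
  linear_combination (π : ℂ) ^ 2 / 2 * hl'

section
variable {ρ₀ c C : ℝ} {s dl : ℂ → ℂ → ℂ → ℂ}

/-- closed braids -/
theorem csum_crit (hS : SD3 ρ₀ c C s dl) {n : ℕ} (hn : 1 ≤ n) {a : ℕ → ℤ} {m : ℤ} {z : ℕ → ℂ}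
    {χ : ℂ} (h : RCrit3 s ρ₀ n a m z χ) (hχ : ‖χ‖ < 1 / 10) {x : ℕ → Piece}
    (hx : RFlat n a (-2) x) {u : ℕ → ℂ} (hu : u = fun j => 2 * π * dl (z j) (z ((j + 1) % n)) χ) :
    ∃ k : ℤ, csum n (cf z χ u) (cg n z χ u) (cF z χ u) (cG n z χ u) x =
      2 * π * I * (RVal3 s n a m z χ - π * I / 4 * ∑ j ∈ range n, (a j : ℂ)) +
        k * (π : ℂ) ^ 2 := by
  have hpi : (π : ℂ) ≠ 0 := Complex.ofReal_ne_zero.2 Real.pi_ne_zero
  have hX := crit_of hS hn h hχ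
  rw [← hu] at hX
  obtain ⟨mc, ic, nc, hv, ha⟩ := h
  obtain ⟨Θ, hΘ⟩ := blk
  obtain ⟨k, hk⟩ := csum_gen (Θ := Θ) hn (a := a) (z := z) (u := u)
    (sv := fun j => s (z j) (z ((j + 1) % n)) χ) (χ := χ) (fun j hj => bg_of_bx (hX.hx j hj).bx.2)
    (fun j hj => hΘ ρ₀ c C s dl hS (z j) (z ((j + 1) % n)) χ (hv j hj).1
      (hv _ (Nat.mod_lt _ (by omega))).1 mc (hv j hj).2.2.1
      (hv _ (Nat.mod_lt _ (by omega))).2.2.1 nc (u j) (by rw [hu])) hX.vert hx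
  refine ⟨k, ?_⟩
  rw [hk, ← hX.axis]
  unfold RVal3
  push_cast
  field_simp
  linear_combination (-(8 * π * χ) + 4 * (π : ℂ) ^ 2 * ∑ j ∈ range n, (a j : ℂ)) * Complex.I_sq

/-- closed braids with their axes -/
theorem csum_crit0 (hS : SD3 ρ₀ c C s dl) {n : ℕ} (hn : 1 ≤ n) {a : ℕ → ℤ} {z : ℕ → ℂ}
    (h : RCrit0 s ρ₀ n a z) {x : ℕ → Piece} {u : ℕ → ℂ} (hX : CritA n a z u)
    (hx : RFlat n a 0 x) (hu : u = fun j => 2 * π * dl (z j) (z ((j + 1) % n)) 0) :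
    ∃ k : ℤ, csum n (cf z 0 u) (cg n z 0 u) (cF z 0 u) (cG n z 0 u) x =
      2 * π * I * (RVal0 s n a z - π * I / 4 * ∑ j ∈ range n, (a j : ℂ)) +
        k * (π : ℂ) ^ 2 := by
  have hpi : (π : ℂ) ≠ 0 := Complex.ofReal_ne_zero.2 Real.pi_ne_zero
  have m0 : (0 : ℂ) ∈ Rc ρ₀ ρ₀ := by
    constructor
    · simpa using hS.hρ.1
    · simpa using hS.hρ.1
  obtain ⟨Θ, hΘ⟩ := blk
  obtain ⟨k, hk⟩ := csum_gen (Θ := Θ) hn (a := a) (z := z) (u := u)
    (sv := fun j => s (z j) (z ((j + 1) % n)) 0) (χ := 0) (fun j hj => bg_of_bx (hX.hx j hj).bx.2)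
    (fun j hj => hΘ ρ₀ c C s dl hS (z j) (z ((j + 1) % n)) 0 (h j hj).1
      (h _ (Nat.mod_lt _ (by omega))).1 m0 (h j hj).2.2.1
      (h _ (Nat.mod_lt _ (by omega))).2.2.1 (by simp) (u j) (by rw [hu])) hX.vert hx
  refine ⟨k, ?_⟩
  rw [hk]
  unfold RVal0
  push_cast
  linear_combination ((π : ℂ) ^ 2 / 2 * ∑ j ∈ range n, (a j : ℂ)) * Complex.I_sq

end

end Pool.Agent.Y482.Cv
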