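import Pool.Agent.Y482.Cv.Blk

/-!
# The sum of the dilogarithms of a block in terms of the exponent
-/

set_option autoImplicit false

namespace Pool.Agent.Y482.Cv

open Filter
open Complex (exp log cos sin I)
open Pool.Agent.TH563.CV (rog)
open Pool.Agent.W711.HT
open Pool.Agent.W719.AR (Fl)
open Pool.Agent.Y472 (SD3)
open Pool.Agent.Y482.Chi hiding tri_a1 tri_a2 tri_b1 tri_b2
open Pool.Agent.Y482.Cz (BG rc_open)
open scoped Real Topology

lemma bg_of_bx {a b d c : ℂ} (h : BX a b d c) : BG a b d c := by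
  obtain ⟨⟨p1, q1⟩, ⟨p2, q2⟩, ⟨p3, q3⟩, -, ⟨p5, q5⟩, -, ⟨p7, q7⟩, ⟨p8, q8⟩, ⟨p9, q9⟩, ⟨p10, q10⟩,
    ⟨p11, q11⟩, ⟨p12, q12⟩, ⟨p13, q13⟩, ⟨p14, q14⟩, ⟨p15, q15⟩⟩ := h.facts
  have hpi := Real.pi_gt_three
  have sp : ∀ {z : ℂ}, z ≠ 0 → (log z).im ≤ 1 / 10 → z ∈ Complex.slitPlane :=
    fun h0 h1 => Cz.sp_of_im h0 (by linarith)
  have sp' : ∀ {z : ℂ}, z ≠ 0 → (log z).im ≤ π / 4 + 1 / 5 → z ∈ Complex.slitPlane :=
    fun h0 h1 => Cz.sp_of_im h0 (by linarith)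
  exact
  { ta1 := Chi.tri_a1 h.s1
    ta2 := Chi.tri_a2 h.s1
    tb1 := Chi.tri_b1 h.s1
    tb2 := Chi.tri_b2 h.s1
    ua1 := Chi.tri_a1 h.s2
    ua2 := Chi.tri_a2 h.s2
    ub1 := Chi.tri_b1 h.s2
    ub2 := Chi.tri_b2 h.s2
    r1 := h.r1
    r2 := h.r2
    r3 := h.r3
    r4 := h.r4
    sb := sp p1 (by linarith [(abs_le.1 q1).2])
    sd := sp p2 (by linarith [(abs_le.1 q2).2])
    sK := sp p3 (by linarith [(abs_le.1 q3).2])
    sE := sp p5 (by linarith [(abs_le.1 q5).2])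
    sCp := sp p7 (abs_le.1 q7).2
    sCm := sp p8 (abs_le.1 q8).2
    sDp := sp p9 (abs_le.1 q9).2
    sDm := sp p10 (abs_le.1 q10).2
    ssp := sp p11 (abs_le.1 q11).2
    ssm := sp p12 (abs_le.1 q12).2
    ssa := sp p13 (abs_le.1 q13).2
    sU := sp' p14 (by have := (abs_le.1 q14).2; unfold ups at this; linarith)
    sUt := sp' p15 (by have := (abs_le.1 q15).2; unfold ups at this; linarith)
    q1 := log_div_near p8 p7 q8 q7
    q2 := log_div_near p10 p9 q10 q9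
    q3 := log_div_near p11 p12 q11 q12 }

/-- the correction -/
lemma ex_theta : ∃ Θ : ℂ → ℂ, ∀ z ∈ Metric.ball (0 : ℂ) (π / 2),
    HasDerivAt Θ (I * (log (cos z) + z * (sin z / cos z))) z := by
  have hd : DifferentiableOn ℂ (fun z => I * (log (cos z) + z * (sin z / cos z)))
      (Metric.ball (0 : ℂ) (π / 2)) := by
    intro z hz
    rw [mem_ball_zero_iff] at hz
    have h1 := (Complex.abs_re_le_norm z).trans_lt hz
    rw [abs_lt] at h1
    have h2 : 0 < (cos z).re := by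
      rw [(Cz.cos_parts z).1]
      exact mul_pos (Real.cos_pos_of_mem_Ioo ⟨by linarith, by linarith⟩) (Real.cosh_pos _)
    have h3 := Cz.sp_of_re h2
    have h4 : cos z ≠ 0 := Cz.ne_of_re h2
    exact (((Complex.differentiableAt_cos.clog h3).add (differentiableAt_id.mul
      (Complex.differentiableAt_sin.div Complex.differentiableAt_cos h4))).const_mul
      I).differentiableWithinAt
  obtain ⟨Θ, hΘ⟩ := hd.isExactOn_ball
  exact ⟨Θ, hΘ⟩

section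
variable {ρ₀ c C : ℝ} {s dl : ℂ → ℂ → ℂ → ℂ}

/-- the derivative of the exponent along a curve -/
lemma sder3 (hS : SD3 ρ₀ c C s dl) {f g h : ℝ → ℂ} {f' g' h' : ℂ} {t : ℝ}
    (hf : HasDerivAt f f' t) (hg : HasDerivAt g g' t) (hh : HasDerivAt h h' t)
    (m1 : f t ∈ Rc ρ₀ ρ₀) (m2 : g t ∈ Rc ρ₀ ρ₀) (m3 : h t ∈ Rc ρ₀ ρ₀) :
    HasDerivAt (fun x => s (f x) (g x) (h x)) (-(1 / (2 * π)) *
      (Lg (2 * π * dl (f t) (g t) (h t)) (f t) * f' + Lg (2 * π * dl (f t) (g t) (h t)) (g t) * g' +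
        Lc (2 * π * dl (f t) (g t) (h t)) (h t) * h')) t := by
  have hU : Rc ρ₀ ρ₀ ×ˢ Rc ρ₀ ρ₀ ×ˢ Rc ρ₀ ρ₀ ∈ 𝓝 (f t, g t, h t) :=
    ((rc_open ρ₀).prod ((rc_open ρ₀).prod (rc_open ρ₀))).mem_nhds ⟨m1, m2, m3⟩
  have D := ((hS.san).differentiableAt hU).hasFDerivAt
  obtain ⟨Φ, hΦ⟩ : ∃ Φ, Φ = fderiv ℂ (fun p : ℂ × ℂ × ℂ => s p.1 p.2.1 p.2.2) (f t, g t, h t) :=
    ⟨_, rfl⟩
  rw [← hΦ] at D
  have e1 : Φ (1, 0, 0) = -(1 / (2 * π)) * Lg (2 * π * dl (f t) (g t) (h t)) (f t) := by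
    have c1 : HasDerivAt (fun z : ℂ => (z, g t, h t)) ((1 : ℂ), (0 : ℂ), (0 : ℂ)) (f t) :=
      (hasDerivAt_id _).prodMk ((hasDerivAt_const _ _).prodMk (hasDerivAt_const _ _))
    have k : HasDerivAt (fun z => s z (g t) (h t)) (Φ (1, 0, 0)) (f t) :=
      HasFDerivAt.comp_hasDerivAt (f := fun z : ℂ => (z, g t, h t)) (f t) D c1
    exact k.unique (hS.sder _ m1 _ m2 _ m3)
  have e2 : Φ (0, 1, 0) = -(1 / (2 * π)) * Lg (2 * π * dl (f t) (g t) (h t)) (g t) := by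
    have c1 : HasDerivAt (fun z : ℂ => (f t, z, h t)) ((0 : ℂ), (1 : ℂ), (0 : ℂ)) (g t) :=
      (hasDerivAt_const _ _).prodMk ((hasDerivAt_id _).prodMk (hasDerivAt_const _ _))
    have k : HasDerivAt (fun z => s (f t) z (h t)) (Φ (0, 1, 0)) (g t) :=
      HasFDerivAt.comp_hasDerivAt (f := fun z : ℂ => (f t, z, h t)) (g t) D c1
    have h1 := hS.sder (g t) m2 (f t) m1 (h t) m3
    have h2 : (fun w => s (f t) w (h t)) =ᶠ[𝓝 (g t)] fun w => s w (f t) (h t) := by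
      filter_upwards [(rc_open ρ₀).mem_nhds m2] with w hw using hS.sym _ m1 _ hw _ m3
    rw [hS.dsym _ m1 _ m2 _ m3]
    exact k.unique (h1.congr_of_eventuallyEq h2)
  have e3 : Φ (0, 0, 1) = -(1 / (2 * π)) * Lc (2 * π * dl (f t) (g t) (h t)) (h t) := by
    have c1 : HasDerivAt (fun z : ℂ => (f t, g t, z)) ((0 : ℂ), (0 : ℂ), (1 : ℂ)) (h t) :=
      (hasDerivAt_const _ _).prodMk ((hasDerivAt_const _ _).prodMk (hasDerivAt_id _))
    have k : HasDerivAt (fun z => s (f t) (g t) z) (Φ (0, 0, 1)) (h t) :=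
      HasFDerivAt.comp_hasDerivAt (f := fun z : ℂ => (f t, g t, z)) (h t) D c1
    rw [k.unique (hS.sderc _ m1 _ m2 _ m3), lg_lc]
  have c0 : HasDerivAt (fun x : ℝ => (f x, g x, h x)) (f', g', h') t :=
    hf.prodMk (hg.prodMk hh)
  have D' := (D.restrictScalars ℝ).comp_hasDerivAt t c0
  refine D'.congr_deriv ?_
  have e4 : ((f', g', h') : ℂ × ℂ × ℂ) = f' • ((1 : ℂ), (0 : ℂ), (0 : ℂ)) +
      (g' • ((0 : ℂ), (1 : ℂ), (0 : ℂ)) + h' • ((0 : ℂ), (0 : ℂ), (1 : ℂ))) := by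
    simp
  rw [ContinuousLinearMap.coe_restrictScalars', e4, map_add, map_add, map_smul, map_smul, map_smul,
    e1, e2, e3]
  simp only [smul_eq_mul]
  ring

/-- the value of `u` -/
lemma u_eq (hS : SD3 ρ₀ c C s dl) {ψ ψ' χ : ℂ} (h : ψ ∈ Rc ρ₀ ρ₀) (h' : ψ' ∈ Rc ρ₀ ρ₀)
    (hχ : χ ∈ Rc ρ₀ ρ₀) (n1 : ‖ψ / 2‖ ≤ 1 / 20) (n2 : ‖ψ' / 2‖ ≤ 1 / 20) (n3 : ‖χ / 2‖ ≤ 1 / 20) :
    2 * π * dl ψ ψ' χ = acf (Rf (ψ / 2) (ψ' / 2) (χ / 2)) := by
  have hpi := Real.pi_gt_three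
  obtain ⟨h1, h2⟩ := den_ne n1 n2 n3
  apply cos_unique
  · have h3 := (hS.dclose _ h _ h' _ hχ).1
    rw [show (2 : ℂ) * π * dl ψ ψ' χ - π / 2 = 2 * π * (dl ψ ψ' χ - 1 / 4) by ring, norm_mul,
      norm_mul, Complex.norm_ofNat, Complex.norm_real, Real.norm_eq_abs, abs_of_pos Real.pi_pos]
    nlinarith [Real.pi_pos]
  · exact (acf_near h2).trans (by linarith [Real.pi_gt_three])
  · rw [acf_cos h2, hS.dcos _ h _ h' _ hχ]
    unfold Rf
    rw [show 2 * (χ / 2) = χ by ring, show 2 * (ψ / 2) = ψ by ring,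
      show 2 * (ψ' / 2) = ψ' by ring]

/-- the sum of the dilogarithms and the corrections -/
noncomputable def sc8 (Θ : ℂ → ℂ) (a b d c : ℂ) : ℂ := S8 a b d c -
      I * (b * lgr a b + d * lgr a d + c * lcr a c) +
      (Θ b - Θ (b + c) - (Θ d - Θ (d + c))) - I * (π / 2) / 2 * E8 a b d c

lemma sc00 (Θ : ℂ → ℂ) : sc8 Θ ((π : ℂ) / 4) 0 0 0 = 4 * π * bet * I - (π : ℂ) ^ 2 / 2 := by
  have hpi := Real.pi_pos
  have h1 : cos ((π : ℂ) / 4) = ((√2 / 2 : ℝ) : ℂ) := by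
    rw [← Real.cos_pi_div_four]; push_cast; rfl
  have h2 : sin ((π : ℂ) / 4) = ((√2 / 2 : ℝ) : ℂ) := by
    rw [← Real.sin_pi_div_four]; push_cast; rfl
  have n0 : ((√2 / 2 : ℝ) : ℂ) ≠ 0 := by
    rw [Complex.ofReal_ne_zero]; positivity
  have hs2 : ((√2 / 2 : ℝ) : ℂ) * ((√2 / 2 : ℝ) : ℂ) = 1 / 2 := by
    rw [← Complex.ofReal_mul]
    have : (√2 / 2 : ℝ) * (√2 / 2) = 1 / 2 := by
      have := Real.mul_self_sqrt (show (0 : ℝ) ≤ 2 by norm_num)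
      linarith
    rw [this]; push_cast; rfl
  have hu : ups ((π : ℂ) / 4) 0 0 = I * (π / 4) := by
    have e : uph ((π : ℂ) / 4) 0 0 = exp (I * (π / 4)) := by
      unfold uph
      simp
    unfold Chi.ups
    rw [e, Complex.log_exp]
    · rw [im_I_mul, show ((π : ℂ) / 4) = ((π / 4 : ℝ) : ℂ) by push_cast; ring, Complex.ofReal_re]
      linarith
    · rw [im_I_mul, show ((π : ℂ) / 4) = ((π / 4 : ℝ) : ℂ) by push_cast; ring, Complex.ofReal_re]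
      linarith
  have e1 : exp (I * ((π : ℂ) / 4)) = ((√2 / 2 : ℝ) : ℂ) * (1 + I) := by
    rw [expI, h1, h2]; ring
  have x1 : exp (aA1 ((π : ℂ) / 4) 0) = 1 + I := by
    unfold aA1
    rw [add_zero, Complex.cos_zero, Complex.log_one, zero_add, Complex.exp_sub, e1, h1,
      Complex.exp_log n0]
    field_simp
  have x2 : exp (aA2 ((π : ℂ) / 4) 0 0) = (1 + I) / 2 := by
    unfold aA2
    rw [add_zero, mul_zero, add_zero, add_zero, Complex.cos_zero, Complex.log_one, sub_zero,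
      show I * (π / 2) + log (sin ((π : ℂ) / 4)) - I * (π / 4) =
        log (sin ((π : ℂ) / 4)) + I * (π / 4) by ring, Complex.exp_add, e1, h2,
      Complex.exp_log n0]
    linear_combination (1 + I) * hs2
  have x3 : exp (bA1 ((π : ℂ) / 4) 0 0) = 1 + I := by
    unfold bA1
    rw [hu, add_zero, add_zero, Complex.cos_zero, Complex.log_one, sub_zero, Complex.exp_sub, e1,
      h1, Complex.exp_log n0]
    field_simp
  have x4 : exp (bA2 ((π : ℂ) / 4) 0 0) = (1 + I) / 2 := by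
    unfold bA2
    rw [hu, add_zero, mul_zero, add_zero, Complex.cos_zero, Complex.log_one, add_zero,
      show I * (π / 2) + log (sin ((π : ℂ) / 4)) - I * (π / 4) =
        log (sin ((π : ℂ) / 4)) + I * (π / 4) by ring, Complex.exp_add, e1, h2,
      Complex.exp_log n0]
    linear_combination (1 + I) * hs2
  have y1 : aA1 ((π : ℂ) / 4) 0 - aB2 ((π : ℂ) / 4) 0 0 = 0 := by
    unfold aA1 aB2
    rw [add_zero, sub_zero, mul_zero, add_zero, add_zero]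
    ring
  have y2 : bA1 ((π : ℂ) / 4) 0 0 - bB2 ((π : ℂ) / 4) 0 0 = 0 := by
    unfold bA1 bB2
    rw [add_zero, sub_zero, mul_zero, add_zero, sub_zero]
    ring
  have hb := Pool.Agent.TH563.CV.base Pool.Agent.TH563.CV.der
    (Pool.Agent.TH563.CV.ref Pool.Agent.TH563.CV.der) sig
  rw [Pool.Agent.TH563.CV.S_BASE] at hb
  unfold sc8 S8 E8
  rw [neg_zero, x1, x2, x3, x4, y1, y2, add_zero]
  linear_combination hb

theorem blk : S_BLK := by
  obtain ⟨Θ, hΘ⟩ := ex_theta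
  refine ⟨Θ, fun ρ₀ c C s dl hS ψ ψ' χ h1 h2 h3 n1 n2 n3 u hu => ?_⟩
  have hpi := Real.pi_gt_three
  have hmc : ∀ {x : ℂ}, x ∈ Rc ρ₀ ρ₀ → ∀ {t : ℝ}, 0 ≤ t → t ≤ 1 → (t : ℂ) * x ∈ Rc ρ₀ ρ₀ := by
    intro x hx t t0 t1
    obtain ⟨a1, a2⟩ := hx
    refine ⟨?_, ?_⟩
    · rw [Complex.re_ofReal_mul, abs_mul, abs_of_nonneg t0]
      have := abs_nonneg x.re
      nlinarith
    · rw [Complex.im_ofReal_mul, abs_mul, abs_of_nonneg t0]
      have := abs_nonneg x.im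
      nlinarith
  have hnm : ∀ {x : ℂ}, ‖x‖ ≤ 1 / 10 → ∀ {t : ℝ}, 0 ≤ t → t ≤ 1 → ‖(t : ℂ) * x / 2‖ ≤ 1 / 20 := by
    intro x hx t t0 t1
    rw [norm_div, norm_mul, Complex.norm_real, Real.norm_eq_abs, abs_of_nonneg t0,
      Complex.norm_ofNat]
    have := norm_nonneg x
    nlinarith
  have key : ∀ x ∈ Set.Icc (0 : ℝ) 1, sc8 Θ (acf (Rf (x * ψ / 2) (x * ψ' / 2) (x * χ / 2)) / 2)
      (x * ψ / 2) (x * ψ' / 2) (x * χ / 2) - 2 * π * I * s (x * ψ) (x * ψ') (x * χ) =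
      sc8 Θ (acf (Rf ((0 : ℝ) * ψ / 2) ((0 : ℝ) * ψ' / 2) ((0 : ℝ) * χ / 2)) / 2)
      ((0 : ℝ) * ψ / 2) ((0 : ℝ) * ψ' / 2) ((0 : ℝ) * χ / 2) -
      2 * π * I * s ((0 : ℝ) * ψ) ((0 : ℝ) * ψ') ((0 : ℝ) * χ) := by
    have hder : ∀ r ∈ Set.Icc (0 : ℝ) 1, HasDerivAt (fun x : ℝ =>
        sc8 Θ (acf (Rf (x * ψ / 2) (x * ψ' / 2) (x * χ / 2)) / 2)
        (x * ψ / 2) (x * ψ' / 2) (x * χ / 2) - 2 * π * I * s (x * ψ) (x * ψ') (x * χ)) 0 r := by
      intro r hr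
      have hid : ∀ x : ℂ, HasDerivAt (fun t : ℝ => (t : ℂ) * x) x r := by
        intro x
        have := (Complex.ofRealCLM.hasDerivAt (x := r)).mul_const x
        simpa using this
      have b1 := hnm n1 hr.1 hr.2
      have b2 := hnm n2 hr.1 hr.2
      have b3 := hnm n3 hr.1 hr.2
      obtain ⟨d1, d2⟩ := den_ne b1 b2 b3
      have hb := (hid ψ).div_const 2
      have hd := (hid ψ').div_const 2
      have hc := (hid χ).div_const 2
      have c1 := hcos (hc.const_mul 2)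
      have c2 := hcos (hb.const_mul 2)
      have c3 := hcos (hd.const_mul 2)
      have hR : HasDerivAt (fun t : ℝ => Rf (t * ψ / 2) (t * ψ' / 2) (t * χ / 2)) _ r :=
        (c1.sub (c2.mul c3)).div (((c1.const_add 1).add c2).add c3) d1
      obtain ⟨p, hp⟩ := acf_deriv hR d2
      have hball : ∀ {x : ℂ}, ‖x‖ ≤ 1 / 5 → x ∈ Metric.ball (0 : ℂ) (π / 2) := by
        intro x hx
        rw [mem_ball_zero_iff]; linarith
      have D1 := dS8 hΘ hr (hp.div_const 2) hb hd hc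
        (fun t ht => bg_of_bx (bx_acf (hnm n1 ht.1 ht.2) (hnm n2 ht.1 ht.2) (hnm n3 ht.1 ht.2)))
        (hball (b1.trans (by norm_num)))
        (hball ((norm_add_le _ _).trans (by linarith)))
        (hball (b2.trans (by norm_num)))
        (hball ((norm_add_le _ _).trans (by linarith)))
      have i1 := hmc h1 hr.1 hr.2
      have i2 := hmc h2 hr.1 hr.2
      have i3 := hmc h3 hr.1 hr.2
      have D2 := (sder3 hS (hid ψ) (hid ψ') (hid χ) i1 i2 i3).const_mul (2 * π * I)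
      refine (D1.sub D2).congr_deriv ?_
      have hu' := u_eq hS i1 i2 i3 b1 b2 b3
      obtain ⟨g1, g2, g3⟩ := (bx_acf b1 b2 b3).lg1
      rw [hu', g1, g2, g3]
      have hpi' : (π : ℂ) ≠ 0 := Complex.ofReal_ne_zero.2 Real.pi_ne_zero
      field_simp
      ring
    intro x hx
    exact constant_of_has_deriv_right_zero (a := 0) (b := 1)
      (fun s hs => (hder s hs).continuousAt.continuousWithinAt)
      (fun s hs => (hder s ⟨hs.1, hs.2.le⟩).hasDerivWithinAt) x hx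
  have k1 := key 1 ⟨zero_le_one, le_rfl⟩
  simp only [Complex.ofReal_one, one_mul, Complex.ofReal_zero, zero_mul, zero_div] at k1
  have b1 := hnm n1 zero_le_one le_rfl
  have b2 := hnm n2 zero_le_one le_rfl
  have b3 := hnm n3 zero_le_one le_rfl
  rw [Complex.ofReal_one, one_mul] at b1 b2 b3
  rw [Cz.acf00, sc00, hS.zero, ← u_eq hS h1 h2 h3 b1 b2 b3, ← hu] at k1
  have hB := bx_acf b1 b2 b3
  rw [← u_eq hS h1 h2 h3 b1 b2 b3, ← hu] at hB
  obtain ⟨g1, g2, g3⟩ := hB.lg1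
  rw [g1, g2, g3]
  unfold sc8 at k1
  push_cast at k1
  linear_combination k1

end

end Pool.Agent.Y482.Cv
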