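import Mathlib

/-! # The derivative of the complex volume of a block: linear algebra -/

set_option autoImplicit false

namespace Pool.Agent.Y482.Cv

theorem cv_alg (sa sp sm Cp Cm Dp Dm kb kd K K' U Ut a b d c : ℂ)
    (dsa dsp dsm dCp dCm dDp dDm dkb dkd dK dK' dU dUt xa xb xd xc I h : ℂ)
    (r1 : Dm = 2 * sa + sp + sm - Cp - Cm - Dp) (r2 : Ut = U + sa + sm - I * c - Cp - Cm)
    (q1 : dDm = 2 * dsa + dsp + dsm - dCp - dCm - dDp)
    (q2 : dUt = dU + dsa + dsm - I * xc - dCp - dCm) :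
    ((h + Cp + I * b - sa) * (dkb + I * xa - dCp) - (kb + I * a - Cp) * (dCp + I * xb - dsa)) / 2 +
    ((K + I * a + I * c - Cm) * (dsp - I * xa + I * xb - dK) -
      (h + sp - I * a + I * b - K) * (dK + I * xa + I * xc - dCm)) / 2 +
    (((h + Dm - I * d - sa) * (dkd + I * xa - dDm) -
      (kd + I * a - Dm) * (dDm - I * xd - dsa)) / 2 +
    ((K' + I * a - I * c - Dp) * (dsm - I * xa - I * xd - dK') -
      (h + sm - I * a - I * d - K') * (dK' + I * xa - I * xc - dDp)) / 2) +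
    (((h + I * b + Cp + K - kb - sp) * (dU - dCp - dK) -
      (U - Cp - K) * (I * xb + dCp + dK - dkb - dsp)) / 2 +
    ((U - I * c - Cm - kb) * (dsa + I * xb + dK - dU) -
      (h + sa + I * b + K - U) * (dU - I * xc - dCm - dkb)) / 2) +
    (((h - I * d + Dm + K' - kd - sm) * (dUt - dDm - dK') -
      (Ut - Dm - K') * (-(I * xd) + dDm + dK' - dkd - dsm)) / 2 +
    ((Ut + I * c - Dp - kd) * (dsa - I * xd + dK' - dUt) -
      (h + sa - I * d + K' - Ut) * (dUt + I * xc - dDp - dkd)) / 2) =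
    -2 * I * ((Cm - Cp) * xb + (Dm - Dp) * xd + (sp - sm) * xc) +
    I * ((Cm - Cp) * xb + b * (dCm - dCp) + ((Dm - Dp) * xd + d * (dDm - dDp)) +
      ((sp - sm) * xc + c * (dsp - dsm))) -
    (I * (kb * xb - b * dkb) - I * (K * (xb + xc) - (b + c) * dK) -
      I * (kd * xd - d * dkd) + I * (K' * (xd + xc) - (d + c) * dK')) +
    h / 2 * ((dkb + I * xa - dCp) - (dK + I * xa + I * xc - dCm) +
      ((dU - dCp - dK) - (dU - I * xc - dCm - dkb)) +
      ((dkd + I * xa - dDm) - (dK' + I * xa - I * xc - dDp)) +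
      ((dUt - dDm - dK') - (dUt + I * xc - dDp - dkd))) := by
  subst r1 r2 q1 q2
  ring

end Pool.Agent.Y482.Cv
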