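import Pool.Agent.Y482.Cv.Stmt
import Pool.Agent.Y482.Cv.Alg
import Pool.Agent.Y482.Cz.Leg

/-!
# The sum of the dilogarithms of a block
-/

set_option autoImplicit false

namespace Pool.Agent.Y482.Cv

open Filter
open Complex (exp log cos sin I)
open Pool.Agent.TH563.CV (rog)
open Pool.Agent.W711.HT
open Pool.Agent.W719.AR (Fl)
open Pool.Agent.Y472 (SD3)
open Pool.Agent.Y482.Chi hiding tri_a1 tri_a2 tri_b1 tri_b2
open Pool.Agent.Y482.Cz (BG)
open scoped Real Topology

section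
variable {f g : ℝ → ℂ} {f' g' : ℂ} {s : ℝ}

lemma deqI (hs : s ∈ Set.Icc (0 : ℝ) 1) (hf : HasDerivAt f f' s) (hg : HasDerivAt g g' s)
    (h : ∀ t ∈ Set.Icc (0 : ℝ) 1, f t = g t) : f' = g' :=
  (uniqueDiffOn_Icc zero_lt_one s hs).eq_deriv _ hf.hasDerivWithinAt
    (hg.hasDerivWithinAt.congr h (h s hs))

/-- Rogers' dilogarithm along a curve -/
lemma drog {A B : ℝ → ℂ} {A' B' : ℂ} (hs : s ∈ Set.Icc (0 : ℝ) 1)
    (h : ∀ t ∈ Set.Icc (0 : ℝ) 1, Tri (A t) (B t)) (hA : HasDerivAt A A' s)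
    (hB : HasDerivAt B B' s) :
    HasDerivAt (fun t => rog (exp (A t))) ((B s * A' - A s * B') / 2) s := by
  have hT := h s hs
  obtain ⟨l1, l2, l3⟩ := logs hT
  have hi := exp_im_pos hT
  have z1 : exp (A s) ∈ Complex.slitPlane := by
    rw [Complex.mem_slitPlane_iff]
    exact Or.inr hi.ne'
  have z2 : 1 - exp (A s) ∈ Complex.slitPlane := by
    rw [Complex.mem_slitPlane_iff]
    right
    rw [Complex.sub_im, Complex.one_im, zero_sub]
    exact (neg_lt_zero.2 hi).ne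
  have d1 := Pool.Agent.TH563.CV.der _ z1 z2
  rw [l1, l3, l2] at d1
  have d2 := d1.comp s (hexp hA)
  have e : exp (A s) * A' + exp (-B s) * -B' = 0 :=
    deqI hs ((hexp hA).add (hexp hB.neg)) (hasDerivAt_const s (1 : ℂ)) (fun t ht => (h t ht).eq)
  refine d2.congr_deriv ?_
  have n1 : exp (A s) ≠ 0 := Complex.exp_ne_zero _
  have n2 : exp (-B s) ≠ 0 := Complex.exp_ne_zero _
  have e' : B' = exp (A s) * A' / exp (-B s) := by
    rw [eq_div_iff n2]
    linear_combination -e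
  rw [e']
  field_simp
  ring

end

theorem dS8 {Θ : ℂ → ℂ} (hΘ : ∀ z ∈ Metric.ball (0 : ℂ) (π / 2),
      HasDerivAt Θ (I * (log (cos z) + z * (sin z / cos z))) z)
    {af bf df cf : ℝ → ℂ} {a' b' d' c' : ℂ} {s : ℝ} (hs : s ∈ Set.Icc (0 : ℝ) 1)
    (haf : HasDerivAt af a' s)
    (hbf : HasDerivAt bf b' s) (hdf : HasDerivAt df d' s) (hcf : HasDerivAt cf c' s)
    (hev : ∀ t ∈ Set.Icc (0 : ℝ) 1, BG (af t) (bf t) (df t) (cf t))
    (m1 : bf s ∈ Metric.ball (0 : ℂ) (π / 2)) (m2 : bf s + cf s ∈ Metric.ball (0 : ℂ) (π / 2))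
    (m3 : df s ∈ Metric.ball (0 : ℂ) (π / 2)) (m4 : df s + cf s ∈ Metric.ball (0 : ℂ) (π / 2)) :
    HasDerivAt (fun t : ℝ => S8 (af t) (bf t) (df t) (cf t) -
      I * (bf t * lgr (af t) (bf t) + df t * lgr (af t) (df t) + cf t * lcr (af t) (cf t)) +
      (Θ (bf t) - Θ (bf t + cf t) - (Θ (df t) - Θ (df t + cf t))) -
      I * (π / 2) / 2 * E8 (af t) (bf t) (df t) (cf t))
      (-2 * I * (lgr (af s) (bf s) * b' + lgr (af s) (df s) * d' + lcr (af s) (cf s) * c')) s := by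
  have h := hev s hs
  obtain ⟨psa, hsa⟩ : ∃ p, HasDerivAt (fun t => log (sin (af t))) p s :=
    ⟨_, (hsin haf).clog_real h.ssa⟩
  obtain ⟨psp, hsp⟩ : ∃ p, HasDerivAt (fun t => log (sin (af t + cf t))) p s :=
    ⟨_, (hsin (haf.add hcf)).clog_real h.ssp⟩
  obtain ⟨psm, hsm⟩ : ∃ p, HasDerivAt (fun t => log (sin (af t - cf t))) p s :=
    ⟨_, (hsin (haf.sub hcf)).clog_real h.ssm⟩
  obtain ⟨pCp, hCp⟩ : ∃ p, HasDerivAt (fun t => log (cos (af t + bf t))) p s :=
    ⟨_, (hcos (haf.add hbf)).clog_real h.sCp⟩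
  obtain ⟨pCm, hCm⟩ : ∃ p, HasDerivAt (fun t => log (cos (af t - bf t))) p s :=
    ⟨_, (hcos (haf.sub hbf)).clog_real h.sCm⟩
  obtain ⟨pDp, hDp⟩ : ∃ p, HasDerivAt (fun t => log (cos (af t + df t))) p s :=
    ⟨_, (hcos (haf.add hdf)).clog_real h.sDp⟩
  obtain ⟨pDm, hDm⟩ : ∃ p, HasDerivAt (fun t => log (cos (af t - df t))) p s :=
    ⟨_, (hcos (haf.sub hdf)).clog_real h.sDm⟩
  have hkb : HasDerivAt (fun t => log (cos (bf t))) (-sin (bf s) * b' / cos (bf s)) s :=
    (hcos hbf).clog_real h.sb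
  have hkd : HasDerivAt (fun t => log (cos (df t))) (-sin (df s) * d' / cos (df s)) s :=
    (hcos hdf).clog_real h.sd
  have hK : HasDerivAt (fun t => log (cos (bf t + cf t)))
      (-sin (bf s + cf s) * (b' + c') / cos (bf s + cf s)) s :=
    (hcos (hbf.add hcf)).clog_real h.sK
  have hE : HasDerivAt (fun t => log (cos (df t + cf t)))
      (-sin (df s + cf s) * (d' + c') / cos (df s + cf s)) s :=
    (hcos (hdf.add hcf)).clog_real h.sE
  obtain ⟨pkb, ekb⟩ : ∃ p, p = -sin (bf s) * b' / cos (bf s) := ⟨_, rfl⟩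
  obtain ⟨pkd, ekd⟩ : ∃ p, p = -sin (df s) * d' / cos (df s) := ⟨_, rfl⟩
  obtain ⟨pK, eK⟩ : ∃ p, p = -sin (bf s + cf s) * (b' + c') / cos (bf s + cf s) := ⟨_, rfl⟩
  obtain ⟨pE, eE⟩ : ∃ p, p = -sin (df s + cf s) * (d' + c') / cos (df s + cf s) := ⟨_, rfl⟩
  rw [← ekb] at hkb
  rw [← ekd] at hkd
  rw [← eK] at hK
  rw [← eE] at hE
  obtain ⟨pU, hU⟩ : ∃ p, HasDerivAt (fun t : ℝ => ups (af t) (bf t) (cf t)) p s := by
    have h0 : HasDerivAt (fun t : ℝ => cos (bf t) ^ 2) _ s := (hcos hbf).pow 2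
    have h1 : HasDerivAt (fun t : ℝ => uph (af t) (bf t) (cf t)) _ s :=
      (h0.mul (hexp ((haf.add hcf).const_mul I))).add ((hsin haf).mul (hsin hcf))
    exact ⟨_, h1.clog_real h.sU⟩
  obtain ⟨pUt, hUt⟩ : ∃ p, HasDerivAt (fun t : ℝ => ups (af t) (-df t) (-cf t)) p s := by
    have h0 : HasDerivAt (fun t : ℝ => cos (-df t) ^ 2) _ s := (hcos hdf.neg).pow 2
    have h1 : HasDerivAt (fun t : ℝ => uph (af t) (-df t) (-cf t)) _ s :=
      (h0.mul (hexp ((haf.add hcf.neg).const_mul I))).add ((hsin haf).mul (hsin hcf.neg))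
    exact ⟨_, h1.clog_real h.sUt⟩
  -- relations between the derivatives
  have q1 : pCp + pCm + pDp + pDm = 2 * psa + psp + psm :=
    deqI hs (((hCp.add hCm).add hDp).add hDm) (((hsa.const_mul 2).add hsp).add hsm)
      (fun t ht => (hev t ht).r1)
  have q2 : pUt = pU + psa + psm - I * c' - pCp - pCm :=
    deqI hs hUt (((((hU.add hsa).add hsm).sub (hcf.const_mul I)).sub hCp).sub hCm)
      (fun t ht => (hev t ht).r2)
  have E : ∀ t : ℝ, _ := fun t => top_eq (af t) (df t) (cf t)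
  -- the sixteen logarithms
  have A1 : HasDerivAt (fun t => aA1 (af t) (bf t)) (pkb + I * a' - pCp) s :=
    (hkb.add (haf.const_mul I)).sub hCp
  have B1 : HasDerivAt (fun t => aB1 (af t) (bf t)) (pCp + I * b' - psa) s :=
    ((hCp.const_add (I * (π / 2))).add (hbf.const_mul I)).sub hsa
  have A2 : HasDerivAt (fun t => aA2 (af t) (bf t) (cf t)) (psp - I * a' + I * b' - pK) s :=
    (((hsp.const_add (I * (π / 2))).sub (haf.const_mul I)).add (hbf.const_mul I)).sub hK
  have B2 : HasDerivAt (fun t => aB2 (af t) (bf t) (cf t)) (pK + I * a' + I * c' - pCm) s :=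
    ((hK.add (haf.const_mul I)).add (hcf.const_mul I)).sub hCm
  have A3 : HasDerivAt (fun t => bA1 (af t) (bf t) (cf t)) (pU - pCp - pK) s :=
    (hU.sub hCp).sub hK
  have B3 : HasDerivAt (fun t => bB1 (af t) (bf t) (cf t)) (I * b' + pCp + pK - pkb - psp) s :=
    (((((hbf.const_mul I).const_add (I * (π / 2))).add hCp).add hK).sub hkb).sub hsp
  have A4 : HasDerivAt (fun t => bA2 (af t) (bf t) (cf t)) (psa + I * b' + pK - pU) s :=
    (((hsa.const_add (I * (π / 2))).add (hbf.const_mul I)).add hK).sub hU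
  have B4 : HasDerivAt (fun t => bB2 (af t) (bf t) (cf t)) (pU - I * c' - pCm - pkb) s :=
    ((hU.sub (hcf.const_mul I)).sub hCm).sub hkb
  have C1 : HasDerivAt (fun t => aA1 (af t) (-df t)) (pkd + I * a' - pDm) s :=
    ((hkd.add (haf.const_mul I)).sub hDm).congr_of_eventuallyEq
      (Eventually.of_forall fun t => (E t).1)
  have D1 : HasDerivAt (fun t => aB1 (af t) (-df t)) (pDm - I * d' - psa) s :=
    (((hDm.const_add (I * (π / 2))).sub (hdf.const_mul I)).sub hsa).congr_of_eventuallyEq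
      (Eventually.of_forall fun t => (E t).2.1)
  have C2 : HasDerivAt (fun t => aA2 (af t) (-df t) (-cf t)) (psm - I * a' - I * d' - pE) s :=
    ((((hsm.const_add (I * (π / 2))).sub (haf.const_mul I)).sub (hdf.const_mul I)).sub
      hE).congr_of_eventuallyEq (Eventually.of_forall fun t => (E t).2.2.1)
  have D2 : HasDerivAt (fun t => aB2 (af t) (-df t) (-cf t)) (pE + I * a' - I * c' - pDp) s :=
    (((hE.add (haf.const_mul I)).sub (hcf.const_mul I)).sub hDp).congr_of_eventuallyEq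
      (Eventually.of_forall fun t => (E t).2.2.2.1)
  have C3 : HasDerivAt (fun t => bA1 (af t) (-df t) (-cf t)) (pUt - pDm - pE) s :=
    ((hUt.sub hDm).sub hE).congr_of_eventuallyEq
      (Eventually.of_forall fun t => (E t).2.2.2.2.1)
  have D3 : HasDerivAt (fun t => bB1 (af t) (-df t) (-cf t)) (-(I * d') + pDm + pE - pkd - psm) s :=
    ((((((hdf.const_mul I).const_sub (I * (π / 2))).add hDm).add hE).sub hkd).sub
      hsm).congr_of_eventuallyEq (Eventually.of_forall fun t => (E t).2.2.2.2.2.1)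
  have C4 : HasDerivAt (fun t => bA2 (af t) (-df t) (-cf t)) (psa - I * d' + pE - pUt) s :=
    ((((hsa.const_add (I * (π / 2))).sub (hdf.const_mul I)).add hE).sub hUt).congr_of_eventuallyEq
      (Eventually.of_forall fun t => (E t).2.2.2.2.2.2.1)
  have D4 : HasDerivAt (fun t => bB2 (af t) (-df t) (-cf t)) (pUt + I * c' - pDp - pkd) s :=
    (((hUt.add (hcf.const_mul I)).sub hDp).sub hkd).congr_of_eventuallyEq
      (Eventually.of_forall fun t => (E t).2.2.2.2.2.2.2)
  have v1 := drog hs (fun t ht => (hev t ht).ta1) A1 B1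
  have v2 := drog hs (fun t ht => (hev t ht).ta2) A2 B2
  have v3 := drog hs (fun t ht => (hev t ht).tb1) A3 B3
  have v4 := drog hs (fun t ht => (hev t ht).tb2) A4 B4
  have w1 := drog hs (fun t ht => (hev t ht).ua1) C1 D1
  have w2 := drog hs (fun t ht => (hev t ht).ua2) C2 D2
  have w3 := drog hs (fun t ht => (hev t ht).ub1) C3 D3
  have w4 := drog hs (fun t ht => (hev t ht).ub2) C4 D4
  have V := ((v1.add v2).add (w1.add w2)).add ((v3.add v4).add (w3.add w4))
  have EE := ((A1.sub B2).add (C1.sub D2)).add ((A3.sub B4).add (C3.sub D4))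
  have l1 : HasDerivAt (fun t => lgr (af t) (bf t)) (pCm - pCp) s := hCm.sub hCp
  have l2 : HasDerivAt (fun t => lgr (af t) (df t)) (pDm - pDp) s := hDm.sub hDp
  have l3 : HasDerivAt (fun t => lcr (af t) (cf t)) (psp - psm) s := hsp.sub hsm
  have L := (((hbf.mul l1).add (hdf.mul l2)).add (hcf.mul l3)).const_mul I
  have t1 := (hΘ _ m1).comp s hbf
  have t2 := (hΘ _ m2).comp s (hbf.add hcf)
  have t3 := (hΘ _ m3).comp s hdf
  have t4 := (hΘ _ m4).comp s (hdf.add hcf)
  have T := ((V.sub L).add ((t1.sub t2).sub (t3.sub t4))).sub (EE.const_mul (I * (π / 2) / 2))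
  refine T.congr_deriv ?_
  clear T V L v1 v2 v3 v4 w1 w2 w3 w4 EE t1 t2 t3 t4 l1 l2 l3 A1 B1 A2 B2 A3 B3 A4 B4 C1 D1 C2 D2
    C3 D3 C4 D4
  have key := cv_alg (log (sin (af s))) (log (sin (af s + cf s)))
    (log (sin (af s - cf s))) (log (cos (af s + bf s))) (log (cos (af s - bf s)))
    (log (cos (af s + df s))) (log (cos (af s - df s))) (log (cos (bf s)))
    (log (cos (df s))) (log (cos (bf s + cf s))) (log (cos (df s + cf s)))
    (ups (af s) (bf s) (cf s)) (ups (af s) (-df s) (-cf s))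
    (af s) (bf s) (df s) (cf s)
    psa psp psm pCp pCm pDp pDm pkb pkd pK pE pU pUt
    a' b' d' c' I (I * (π / 2))
    (by linear_combination h.r1) (by linear_combination h.r2) (by linear_combination q1)
    (by linear_combination q2)
  have nb := Complex.slitPlane_ne_zero h.sb
  have nd := Complex.slitPlane_ne_zero h.sd
  have nK := Complex.slitPlane_ne_zero h.sK
  have nE := Complex.slitPlane_ne_zero h.sE
  have u1 : I * (log (cos (bf s)) + bf s * (sin (bf s) / cos (bf s))) * b' =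
      I * (log (cos (bf s)) * b' - bf s * pkb) := by rw [ekb]; ring
  have u2 : I * (log (cos (bf s + cf s)) + (bf s + cf s) * (sin (bf s + cf s) / cos (bf s + cf s))) *
      (b' + c') = I * (log (cos (bf s + cf s)) * (b' + c') - (bf s + cf s) * pK) := by
    rw [eK]; ring
  have u3 : I * (log (cos (df s)) + df s * (sin (df s) / cos (df s))) * d' =
      I * (log (cos (df s)) * d' - df s * pkd) := by rw [ekd]; ring
  have u4 : I * (log (cos (df s + cf s)) + (df s + cf s) * (sin (df s + cf s) / cos (df s + cf s))) *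
      (d' + c') = I * (log (cos (df s + cf s)) * (d' + c') - (df s + cf s) * pE) := by
    rw [eE]; ring
  obtain ⟨t1, t2, t3, t4, t5, t6, t7, t8⟩ := top_eq (af s) (df s) (cf s)
  rw [u1, u2, u3, u4]
  simp only [t1, t2, t3, t4, t5, t6, t7, t8]
  simp only [aA1, aB1, aA2, aB2, bA1, bB1, bA2, bB2, lgr, lcr] at key ⊢
  linear_combination key

end Pool.Agent.Y482.Cv
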