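import Pool.Agent.TH563.CV.Dil
import Pool.Agent.Y482.Chi.Defs

/-!
# Flattenings of the complement of a closed 3-braid: definitions

The decomposition is the one of `Pool.Agent.Y482.Chi.Defs`.  The extended Rogers dilogarithm, labels
and orders are as in `Pool.Agent.TH563.CV.Flat`.
-/

set_option autoImplicit false

namespace Pool.Agent.Y482.Cv

open Finset
open Pool.Agent.TH563.CV (rog)
open Pool.Agent.W719.AR (Fl)
open Pool.Agent.Y482.Chi (ChiAng chiVol VX rho rlam)
open scoped Real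

/-- the extended Rogers dilogarithm of Neumann -/
noncomputable def extRogers (z : ℂ) (p q : ℤ) : ℂ :=
  rog z + π * Complex.I / 2 * (q * Complex.log z + p * Complex.log (1 - z))

/-- the shape parameter of an ideal tetrahedron with the dihedral angles `a, b, c`, at the edge with
the angle `a` -/
noncomputable def shape (a b c : ℝ) : ℂ :=
  ((Real.sin b / Real.sin c : ℝ) : ℂ) * Complex.exp (Complex.I * a)

/-- the term of a tetrahedron, order of the vertices = orientation -/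
noncomputable def pos (z : ℂ) (A B : ℤ) : ℂ := extRogers z (-A) (-B)

/-- the term of a tetrahedron, order of the vertices opposite to the orientation -/
noncomputable def neg (z : ℂ) (A C : ℤ) : ℂ := -extRogers (1 / z) A C

/-- the term of a tetrahedron with the vertices `v, x, y, w`, of which `v` is the first one -/
noncomputable def tet (a b c : ℝ) (A B C : ℤ) (x y w : ℤ) : ℂ :=
  if x < y ∧ y < w then neg (shape a b c) A C
  else if x < w ∧ w < y then pos (shape a b c) A B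
  else if y < w ∧ w < x then neg (shape b c a) B A
  else if y < x ∧ x < w then pos (shape b c a) B C
  else if w < x ∧ x < y then neg (shape c a b) C B
  else pos (shape c a b) C A

/-- labels of two tetrahedra -/
structure Labels where
  a : ℤ
  b : ℤ
  c : ℤ
  a' : ℤ
  b' : ℤ
  c' : ℤ

/-- the two tetrahedra `v k_1 k_2 k_3`, `v k_1 k_3 k_4` -/
noncomputable def two (f : Fl) (F : Labels) (n1 n2 n3 n4 : ℤ) : ℂ :=
  tet f.a f.b f.c F.a F.b F.c n1 n2 n3 + tet f.a' f.b' f.c' F.a' F.b' F.c' n1 n3 n4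

/-- the labels (at the same edges as the angles `f g F G`), and the order of the vertices `p`, `q`,
`r` and `A` of the two octahedra number `j` -/
structure Piece where
  f : Labels
  g : Labels
  F : Labels
  G : Labels
  n1 : ℤ
  n2 : ℤ
  n3 : ℤ
  n4 : ℤ

namespace Piece

/-- the contribution of the eight tetrahedra -/
noncomputable def term (f g F G : Fl) (x : Piece) : ℂ :=
  two f x.f x.n1 x.n2 x.n3 x.n4 + two g x.g x.n3 x.n2 x.n1 x.n4 +
    (two F x.F x.n2 x.n1 x.n4 x.n3 + two G x.G x.n2 x.n3 x.n4 x.n1)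

/-- the sum of the labels of a tetrahedron is `1`, around the diagonals it is `2`, and the vertices
are ordered -/
def Inner (x : Piece) : Prop :=
  (x.f.a + x.f.b + x.f.c = 1 ∧ x.f.a' + x.f.b' + x.f.c' = 1) ∧
  (x.g.a + x.g.b + x.g.c = 1 ∧ x.g.a' + x.g.b' + x.g.c' = 1) ∧
  (x.F.a + x.F.b + x.F.c = 1 ∧ x.F.a' + x.F.b' + x.F.c' = 1) ∧
  (x.G.a + x.G.b + x.G.c = 1 ∧ x.G.a' + x.G.b' + x.G.c' = 1) ∧
  x.f.b + x.f.c' + (x.g.b + x.g.c') = 2 ∧ x.F.b + x.F.c' + (x.G.b + x.G.c') = 2 ∧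
  x.n1 ≠ x.n2 ∧ x.n1 ≠ x.n3 ∧ x.n1 ≠ x.n4 ∧ x.n2 ≠ x.n3 ∧ x.n2 ≠ x.n4 ∧ x.n3 ≠ x.n4

/-- the conditions at the lower fibre -/
def Bottom (x : Piece) : Prop :=
  x.f.a + x.f.a' + x.F.b = 1 ∧ x.f.b + (x.F.a + x.F.a') = 1 ∧
  x.f.c + x.f.b' + x.F.c' = 1 ∧ x.f.c' + (x.F.c + x.F.b') = 1 ∧
  x.f.c + x.g.a + (x.F.c + x.G.b') = 1 ∧ x.f.a' + x.g.b' + (x.F.a' + x.G.a) = 1 ∧
  x.f.a + x.f.a' + x.f.b - 1 = 0 ∧ x.F.a + x.F.a' + x.F.b - 1 = 0

/-- the conditions at the upper fibre -/
def Top (x : Piece) : Prop :=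
  x.g.a + x.g.a' + x.G.b = 1 ∧ x.g.b + (x.G.a + x.G.a') = 1 ∧
  x.g.c + x.g.b' + x.G.c' = 1 ∧ x.g.c' + (x.G.c + x.G.b') = 1 ∧
  x.g.c + x.f.a + (x.G.c + x.F.b') = 1 ∧ x.g.a' + x.f.b' + (x.G.a' + x.F.a) = 1 ∧
  x.g.a + x.g.a' + x.g.b - 1 = 0 ∧ x.G.a + x.G.a' + x.G.b - 1 = 0

/-- the label of the path through the front octahedron around the lower circle -/
def low (x : Piece) : ℤ := x.f.a + x.f.a' + x.f.c' - 1

/-- the label of the path through the front octahedron around the upper circle -/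
def high (x : Piece) : ℤ := x.g.a + x.g.a' + x.g.c' - 1

/-- the label of the path through the front octahedron around the axis -/
def along (x : Piece) : ℤ := x.f.c' + x.f.b' + x.g.a' - 1

end Piece

/-- the conditions at the circle with `w` half twists between `x` (below) and `y` (above) -/
structure CircFlat (w : ℤ) (x y : Piece) : Prop where
  fill : y.low - x.high = 2
  even : Even w → (x.n2 < x.n3 ↔ y.n2 < y.n1)
  odd : Odd w → (x.n2 < x.n3 ↔ y.n1 < y.n2)
  out : x.n1 < x.n4 ↔ y.n3 < y.n4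

/-- flattenings; `c` is the label of the meridian of the axis: `-2` if the axis is filled, `0` if
not -/
structure RFlat (n : ℕ) (a : ℕ → ℤ) (c : ℤ) (x : ℕ → Piece) : Prop where
  inner : ∀ j < n, (x j).Inner ∧ (x j).Bottom ∧ (x j).Top
  vert : ∀ j < n, CircFlat (a ((j + 1) % n)) (x j) (x ((j + 1) % n))
  axis : ∑ j ∈ range n, (x j).along = c

/-- the sum of the dilogarithms -/
noncomputable def csum (n : ℕ) (f g F G : ℕ → Fl) (x : ℕ → Piece) : ℂ :=
  ∑ j ∈ range n, (x j).term (f j) (g j) (F j) (G j)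

/-- `V + i C` is the complex volume of the complement of the closed braid with `m` full twists -/
def HasCS (n : ℕ) (a : ℕ → ℤ) (m : ℤ) (V C : ℝ) : Prop :=
  ∃ (f g F G : ℕ → Fl) (x : ℕ → Piece), ChiAng n a m f g F G ∧ chiVol n f g F G = V ∧
    RFlat n a (-2) x ∧ ∃ k : ℤ, Complex.I * (V + Complex.I * C) =
      csum n f g F G x + k * (π : ℂ) ^ 2

/-- angle structures of the complement of the closed braid with its axis -/
structure AxAng (n : ℕ) (a : ℕ → ℤ) (f g F G : ℕ → Fl) : Prop where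
  pos : ∀ j < n, (f j).Pos ∧ (g j).Pos ∧ (F j).Pos ∧ (G j).Pos
  diag : ∀ j < n, (f j).b + (f j).c' + ((g j).b + (g j).c') = 2 * π ∧
    (F j).b + (F j).c' + ((G j).b + (G j).c') = 2 * π
  vert : ∀ j < n, VX (a ((j + 1) % n)) (f j) (g j) (F j) (G j)
    (f ((j + 1) % n)) (g ((j + 1) % n)) (F ((j + 1) % n)) (G ((j + 1) % n))
  long : rlam (f 0) (g 0) (F 0) (G 0) = 0
  mer : ∑ j ∈ range n, rho (f j) (g j) (F j) (G j) = 0

/-- `V + i C` is the complex volume of the complement of the closed braid with its axis -/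
def HasCSA (n : ℕ) (a : ℕ → ℤ) (V C : ℝ) : Prop :=
  ∃ (f g F G : ℕ → Fl) (x : ℕ → Piece), AxAng n a f g F G ∧ chiVol n f g F G = V ∧
    RFlat n a 0 x ∧ ∃ k : ℤ, Complex.I * (V + Complex.I * C) =
      csum n f g F G x + k * (π : ℂ) ^ 2

end Pool.Agent.Y482.Cv
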