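import Pool.Agent.Y482.Cv.Ray
import Pool.Agent.Y482.Cz.Fin

/-!
# The sum of the dilogarithms of a block in terms of the exponent, near `(0, 0, χ₀)`
-/

set_option autoImplicit false

namespace Pool.Agent.Y482.Cv

open Filter
open Complex (exp log cos sin I)
open Pool.Agent.TH563.CV (rog)
open Pool.Agent.W711.HT
open Pool.Agent.Y472 (SDZ S_S0P s0 gh Rz Zr)
open Pool.Agent.Y482.Chi hiding tri_a1 tri_a2 tri_b1 tri_b2
open Pool.Agent.Y482.Cz (BG RG Gd Near)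
open scoped Real Topology

lemma cconst01 {F : ℝ → ℂ} (h : ∀ s ∈ Set.Icc (0 : ℝ) 1, HasDerivAt F 0 s) : F 1 = F 0 :=
  constant_of_has_deriv_right_zero (f := F) (a := 0) (b := 1)
    (fun s hs => (h s hs).continuousAt.continuousWithinAt)
    (fun s hs => (h s ⟨hs.1, hs.2.le⟩).hasDerivWithinAt) 1 ⟨zero_le_one, le_rfl⟩

section
variable {Θ : ℂ → ℂ}

theorem legc (hΘ : ∀ z ∈ Metric.ball (0 : ℂ) (π / 2),
      HasDerivAt Θ (I * (log (cos z) + z * (sin z / cos z))) z)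
    {bf df cf : ℝ → ℂ} {b' d' c' : ℂ} {s : ℝ} (hs : s ∈ Set.Icc (0 : ℝ) 1)
    (hb : HasDerivAt bf b' s) (hd : HasDerivAt df d' s) (hc : HasDerivAt cf c' s)
    (h : ∀ t ∈ Set.Icc (0 : ℝ) 1, Gd (bf t, df t, cf t)) :
    HasDerivAt (fun t => sc8 Θ (acf (Rf (bf t) (df t) (cf t)) / 2) (bf t) (df t) (cf t))
      (-2 * I * (lgr (acf (Rf (bf s) (df s) (cf s)) / 2) (bf s) * b' +
        lgr (acf (Rf (bf s) (df s) (cf s)) / 2) (df s) * d' +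
        lcr (acf (Rf (bf s) (df s) (cf s)) / 2) (cf s) * c')) s := by
  have h0 := h s hs
  obtain ⟨a', ha⟩ := Cz.dacf hb hd hc h0
  exact dS8 hΘ hs ha hb hd hc (fun t ht => (h t ht).bg) h0.m1 h0.m2 h0.m3 h0.m4

theorem legc1 (hS : S_S0P) (hΘ : ∀ z ∈ Metric.ball (0 : ℂ) (π / 2),
      HasDerivAt Θ (I * (log (cos z) + z * (sin z / cos z))) z) {c : ℂ} (hc : RG c)
    (h : ∀ t : ℝ, 0 ≤ t → t ≤ 1 → ((0 : ℂ), (0 : ℂ), (t : ℂ) * c) ∈ interior {p | Gd p}) :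
    sc8 Θ (acf (Rf 0 0 c) / 2) 0 0 c = 2 * π * I * s0 (2 * c) - (π : ℂ) ^ 2 / 2 := by
  have hpi := Real.pi_pos
  have hpi' : (π : ℂ) ≠ 0 := Complex.ofReal_ne_zero.2 Real.pi_ne_zero
  have key := cconst01 (F := fun t : ℝ => sc8 Θ (acf (Rf 0 0 (t * c)) / 2) 0 0 (t * c) -
    2 * π * I * s0 (2 * (t * c))) (by
    intro s hs
    have hcf : HasDerivAt (fun t : ℝ => (t : ℂ) * c) c s := by
      have := (Complex.ofRealCLM.hasDerivAt (x := s)).mul_const c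
      simpa using this
    have h0 : HasDerivAt (fun _ : ℝ => (0 : ℂ)) 0 s := hasDerivAt_const s 0
    have d1 := legc hΘ hs h0 h0 hcf
      (fun t ht => interior_subset (s := {p | Gd p}) (h t ht.1 ht.2))
    have hR := hc.smul hs.1 hs.2
    have hre : |(2 * ((s : ℂ) * c)).re| < π := by
      rw [show (2 * ((s : ℂ) * c)).re = 2 * ((s : ℂ) * c).re by simp, abs_lt]
      constructor <;> linarith [hR.x0, hR.x1]
    have d2 := ((hS.1 _ hre).1.comp s (hcf.const_mul 2)).const_mul (2 * π * I)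
    refine (d1.sub d2).congr_deriv ?_
    rw [Cz.lcr_base hR, mul_zero, zero_add, zero_add]
    field_simp
    ring)
  simp only [Complex.ofReal_one, one_mul, Complex.ofReal_zero, zero_mul, mul_zero] at key
  rw [Cz.acf00, sc00, hS.2.2.1] at key
  push_cast at key
  linear_combination key

section
variable {χ₀ : ℂ} {ρ₀ c C : ℝ} {s dl : ℂ → ℂ → ℂ → ℂ}

theorem legc2 (hS0 : S_S0P) (hS : SDZ χ₀ ρ₀ c C s dl)
    (hΘ : ∀ z ∈ Metric.ball (0 : ℂ) (π / 2),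
      HasDerivAt Θ (I * (log (cos z) + z * (sin z / cos z))) z) (hc : RG (χ₀ / 2))
    (h : ∀ t : ℝ, 0 ≤ t → t ≤ 1 → ((0 : ℂ), (0 : ℂ), (t : ℂ) * (χ₀ / 2)) ∈ interior {p | Gd p})
    {ψ ψ' χ : ℂ} (h1 : ψ ∈ Rc ρ₀ ρ₀) (h2 : ψ' ∈ Rc ρ₀ ρ₀) (h3 : χ ∈ Rz χ₀ ρ₀)
    (h4 : ∀ t : ℝ, 0 ≤ t → t ≤ 1 → ((t : ℂ) * ψ / 2, (t : ℂ) * ψ' / 2,
      (χ₀ + (t : ℂ) * (χ - χ₀)) / 2) ∈ interior {p | Gd p}) :
    sc8 Θ (2 * π * dl ψ ψ' χ / 2) (ψ / 2) (ψ' / 2) (χ / 2) =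
      2 * π * I * s ψ ψ' χ - (π : ℂ) ^ 2 / 2 := by
  have hpi := Real.pi_pos
  have hpi' : (π : ℂ) ≠ 0 := Complex.ofReal_ne_zero.2 Real.pi_ne_zero
  have hmc : ∀ {x : ℂ}, x ∈ Rc ρ₀ ρ₀ → ∀ {t : ℝ}, 0 ≤ t → t ≤ 1 → (t : ℂ) * x ∈ Rc ρ₀ ρ₀ := by
    intro x hx t t0 t1
    obtain ⟨a1, a2⟩ := hx
    refine ⟨?_, ?_⟩
    · rw [Complex.re_ofReal_mul, abs_mul, abs_of_nonneg t0]
      have := abs_nonneg x.re
      nlinarith
    · rw [Complex.im_ofReal_mul, abs_mul, abs_of_nonneg t0]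
      have := abs_nonneg x.im
      nlinarith
  have hmz : ∀ {t : ℝ}, 0 ≤ t → t ≤ 1 → χ₀ + (t : ℂ) * (χ - χ₀) ∈ Rz χ₀ ρ₀ := by
    intro t t0 t1
    show χ₀ + (t : ℂ) * (χ - χ₀) - χ₀ ∈ Rc ρ₀ ρ₀
    rw [add_sub_cancel_left]
    exact hmc h3 t0 t1
  have key := cconst01 (F := fun t : ℝ => sc8 Θ (acf (Rf (t * ψ / 2) (t * ψ' / 2)
      ((χ₀ + t * (χ - χ₀)) / 2)) / 2) (t * ψ / 2) (t * ψ' / 2) ((χ₀ + t * (χ - χ₀)) / 2) -
    2 * π * I * s (t * ψ) (t * ψ') (χ₀ + t * (χ - χ₀))) (by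
    intro r hr
    have hid : ∀ x : ℂ, HasDerivAt (fun t : ℝ => (t : ℂ) * x) x r := by
      intro x
      have := (Complex.ofRealCLM.hasDerivAt (x := r)).mul_const x
      simpa using this
    have hb := (hid ψ)
    have hd := (hid ψ')
    have hcf := (hid (χ - χ₀)).const_add χ₀
    have hg := interior_subset (s := {p | Gd p}) (h4 r hr.1 hr.2)
    have d1 := legc hΘ hr (hb.div_const 2) (hd.div_const 2) (hcf.div_const 2)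
      (fun t ht => interior_subset (s := {p | Gd p}) (h4 t ht.1 ht.2))
    have i1 := hmc h1 hr.1 hr.2
    have i2 := hmc h2 hr.1 hr.2
    have i3 := hmz hr.1 hr.2
    have d2 := (Cz.sder3 hS hb hd hcf i1 i2 i3).const_mul (2 * π * I)
    refine (d1.sub d2).congr_deriv ?_
    have hu := Cz.u_eq hS i1 i2 i3 hg
    have hB : BG (acf (Rf (r * ψ / 2) (r * ψ' / 2) ((χ₀ + r * (χ - χ₀)) / 2)) / 2) (r * ψ / 2)
      (r * ψ' / 2) ((χ₀ + r * (χ - χ₀)) / 2) := hg.bg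
    obtain ⟨g1, g2, g3⟩ := hB.lg1
    rw [hu, g1, g2, g3]
    field_simp
    ring)
  simp only [Complex.ofReal_one, one_mul, Complex.ofReal_zero, zero_mul, zero_div, add_zero,
    add_sub_cancel] at key
  have k1 := legc1 hS0 hΘ hc h
  have z0 : (0 : ℂ) ∈ Rc ρ₀ ρ₀ := by
    have := hmc h1 le_rfl zero_le_one
    simpa using this
  have zχ : χ₀ ∈ Rz χ₀ ρ₀ := by
    have := hmz le_rfl zero_le_one
    simpa using this
  rw [k1, hS.zero _ zχ, show 2 * (χ₀ / 2) = χ₀ by ring] at key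
  have hg := interior_subset (s := {p | Gd p}) (h4 1 zero_le_one le_rfl)
  simp only [Complex.ofReal_one, one_mul, add_sub_cancel] at hg
  rw [Cz.u_eq hS h1 h2 h3 hg]
  linear_combination key

end

end

/-- BLKZ: the sum of the dilogarithms of a block near `(0, 0, χ₀)` -/
theorem blkz (hS0 : S_S0P) : ∃ Θ : ℂ → ℂ, ∀ (χ₀ : ℂ) (ε : ℝ), Near χ₀ ε →
    ∀ (ρ₀ c C : ℝ) (s dl : ℂ → ℂ → ℂ → ℂ), SDZ χ₀ ρ₀ c C s dl →
    ∀ ψ ψ' χ : ℂ, ψ ∈ Rc ρ₀ ρ₀ → ψ' ∈ Rc ρ₀ ρ₀ → χ ∈ Rz χ₀ ρ₀ → ‖ψ‖ ≤ ε → ‖ψ'‖ ≤ ε →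
    ‖χ - χ₀‖ ≤ ε → ∀ u : ℂ, u = 2 * π * dl ψ ψ' χ →
    S8 (u / 2) (ψ / 2) (ψ' / 2) (χ / 2) = 2 * π * I * s ψ ψ' χ +
      I / 2 * (ψ * Lg u ψ + ψ' * Lg u ψ' + χ * Lc u χ) -
      (Θ (ψ / 2) - Θ (ψ / 2 + χ / 2) - (Θ (ψ' / 2) - Θ (ψ' / 2 + χ / 2))) +
      π * I / 4 * E8 (u / 2) (ψ / 2) (ψ' / 2) (χ / 2) - (π : ℂ) ^ 2 / 2 := by
  obtain ⟨Θ, hΘ⟩ := ex_theta
  refine ⟨Θ, fun χ₀ ε hN ρ₀ c C s dl hS ψ ψ' χ h1 h2 h3 n1 n2 n3 u hu => ?_⟩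
  obtain ⟨hR, hp, hq⟩ := hN
  have hq' := hq ψ ψ' χ n1 n2 n3
  have key := legc2 hS0 hS hΘ hR hp h1 h2 h3 hq'
  have hg := interior_subset (s := {p | Gd p}) (hq' 1 zero_le_one le_rfl)
  simp only [Complex.ofReal_one, one_mul, add_sub_cancel] at hg
  have hB : BG (2 * π * dl ψ ψ' χ / 2) (ψ / 2) (ψ' / 2) (χ / 2) := by
    rw [Cz.u_eq hS h1 h2 h3 hg]
    exact hg.bg
  obtain ⟨g1, g2, g3⟩ := hB.lg1
  subst hu
  rw [g1, g2, g3]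
  unfold sc8 at key
  linear_combination key

end Pool.Agent.Y482.Cv
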