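import Pool.Agent.Y482.Cv.Tet
import Pool.Agent.Y482.Chi.Ring
import Pool.Agent.Y482.Ph.Defs

/-!
# The complex volume of closed 3-braids: statements

Plan for `S_BLK` (numerically checked): with `b = ψ / 2`, `d = ψ' / 2`, `c = χ / 2`, along the ray
`t ↦ (t b, t d, t c)`, `t ∈ [0, 1]`, `a t = acf (Rf (t b) (t d) (t c)) / 2` (`Chi.bx_acf` gives `BX`
for norms `≤ 1 / 20`, `Chi.cos_unique` gives `u = 2 a`), the derivative of `rog (exp A)` is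
`(B A' - A B') / 2` for every triangle `Tri A B` (`TH563.CV.der` and `Cv.logs`); `Cv.cv_alg` is the
resulting identity between derivatives (with `h = I π / 2`, and `r1`, `r2` of `Chi.Rel`, whose
derivatives are equal by uniqueness of derivatives within `Icc 0 1`); `Θ' x = I (log (cos x) +
x sin x / cos x)` (a primitive on the ball of radius `1 / 5`); the derivative of `s` is by `SD3.san`,
`SD3.sder`, `SD3.sderc`, `SD3.sym`; at `t = 0` use `TH563.CV.base` and `E8 = 0`.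
-/

set_option autoImplicit false

namespace Pool.Agent.Y482.Cv

open Finset Filter Topology
open Complex (exp log cos sin I)
open Pool.Agent.TH563.CV (rog)
open Pool.Agent.W711.HT
open Pool.Agent.W719.AR (Fl)
open Pool.Agent.Y472 (SD3 RCrit3 RVal3)
open Pool.Agent.Y482.Chi
open Pool.Agent.Y482.Ph (RCrit0 RVal0)
open scoped Real

/-- the eight dilogarithms of a block -/
noncomputable def S8 (a b d c : ℂ) : ℂ :=
  rog (exp (aA1 a b)) + rog (exp (aA2 a b c)) +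
    (rog (exp (aA1 a (-d))) + rog (exp (aA2 a (-d) (-c)))) +
    (rog (exp (bA1 a b c)) + rog (exp (bA2 a b c)) +
      (rog (exp (bA1 a (-d) (-c))) + rog (exp (bA2 a (-d) (-c)))))

/-- the correction -/
noncomputable def E8 (a b d c : ℂ) : ℂ :=
  aA1 a b - aB2 a b c + (aA1 a (-d) - aB2 a (-d) (-c)) +
    (bA1 a b c - bB2 a b c + (bA1 a (-d) (-c) - bB2 a (-d) (-c)))

/-- BLK: the sum of the dilogarithms of a block -/
def S_BLK : Prop := ∃ Θ : ℂ → ℂ, ∀ (ρ₀ c C : ℝ) (s dl : ℂ → ℂ → ℂ → ℂ), SD3 ρ₀ c C s dl →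
  ∀ ψ ψ' χ : ℂ, ψ ∈ Rc ρ₀ ρ₀ → ψ' ∈ Rc ρ₀ ρ₀ → χ ∈ Rc ρ₀ ρ₀ → ‖ψ‖ ≤ 1 / 10 → ‖ψ'‖ ≤ 1 / 10 →
  ‖χ‖ ≤ 1 / 10 → ∀ u : ℂ, u = 2 * π * dl ψ ψ' χ →
  S8 (u / 2) (ψ / 2) (ψ' / 2) (χ / 2) = 2 * π * I * s ψ ψ' χ +
    I / 2 * (ψ * Lg u ψ + ψ' * Lg u ψ' + χ * Lc u χ) -
    (Θ (ψ / 2) - Θ (ψ / 2 + χ / 2) - (Θ (ψ' / 2) - Θ (ψ' / 2 + χ / 2))) +
    π * I / 4 * E8 (u / 2) (ψ / 2) (ψ' / 2) (χ / 2) - (π : ℂ) ^ 2 / 2

/-- the structures of a critical configuration -/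
noncomputable def cf (z : ℕ → ℂ) (χ : ℂ) (u : ℕ → ℂ) : ℕ → Fl := fun j =>
  flA (u j / 2) (z j / 2) (χ / 2)
noncomputable def cg (n : ℕ) (z : ℕ → ℂ) (χ : ℂ) (u : ℕ → ℂ) : ℕ → Fl := fun j =>
  flA (u j / 2) (-(z ((j + 1) % n) / 2)) (-(χ / 2))
noncomputable def cF (z : ℕ → ℂ) (χ : ℂ) (u : ℕ → ℂ) : ℕ → Fl := fun j =>
  flB (u j / 2) (z j / 2) (χ / 2)
noncomputable def cG (n : ℕ) (z : ℕ → ℂ) (χ : ℂ) (u : ℕ → ℂ) : ℕ → Fl := fun j =>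
  flB (u j / 2) (-(z ((j + 1) % n) / 2)) (-(χ / 2))

/-- UNI: uniqueness of the structure of maximal volume (equality in `Chi.crit_max`, by
`Pool.Agent.TH563.CU.vol_eq` of `TH563/CU/TetS.lean`) -/
def S_UNI : Prop := ∀ (n : ℕ) (a : ℕ → ℤ) (m : ℤ) (z : ℕ → ℂ) (χ : ℂ) (u : ℕ → ℂ), 1 ≤ n →
  CritX n a m z χ u → ∀ f g F G : ℕ → Fl, ChiAng n a m f g F G →
    (∑ j ∈ range n, hvX (z j) (z ((j + 1) % n)) χ (u j)) ≤ chiVol n f g F G →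
    ∀ j < n, f j = cf z χ u j ∧ g j = cg n z χ u j ∧ F j = cF z χ u j ∧ G j = cG n z χ u j

/-- a critical configuration, closed braid with its axis -/
structure CritA (n : ℕ) (a : ℕ → ℤ) (z : ℕ → ℂ) (u : ℕ → ℂ) : Prop where
  hx : ∀ j < n, HX (z j) (z ((j + 1) % n)) 0 (u j)
  vert : ∀ j < n, I * (a ((j + 1) % n) * z ((j + 1) % n) + 2 * π) =
    Lg (u j) (z ((j + 1) % n)) + Lg (u ((j + 1) % n)) (z ((j + 1) % n))

/-- GEOA8: the maximal volume and its structure, closed braid with its axis; eight tetrahedra for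
every edge (`AxAng` in `Cv.Defs`; as `Chi.crit_ang`, `Chi.crit_vol`, `Chi.crit_max`, with `χ = 0`,
`lcr a 0 = 0`) -/
def S_GEOA8 : Prop := ∀ (n : ℕ) (a : ℕ → ℤ) (z : ℕ → ℂ) (u : ℕ → ℂ), 1 ≤ n → CritA n a z u →
  AxAng n a (cf z 0 u) (cg n z 0 u) (cF z 0 u) (cG n z 0 u) ∧
  chiVol n (cf z 0 u) (cg n z 0 u) (cF z 0 u) (cG n z 0 u) =
    ∑ j ∈ range n, hvX (z j) (z ((j + 1) % n)) 0 (u j) ∧
  ∀ f g F G : ℕ → Fl, AxAng n a f g F G →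
    chiVol n f g F G ≤ ∑ j ∈ range n, hvX (z j) (z ((j + 1) % n)) 0 (u j) ∧
    ((∑ j ∈ range n, hvX (z j) (z ((j + 1) % n)) 0 (u j)) ≤ chiVol n f g F G →
      ∀ j < n, f j = cf z 0 u j ∧ g j = cg n z 0 u j ∧ F j = cF z 0 u j ∧ G j = cG n z 0 u j)

/-- CRA: the critical points of the potential at `χ = 0` (as `Chi.crit_of`, `Chi.val_of`,
`Ph.crr_of`, `Ph.val0_of`) -/
def S_CRA : Prop := ∀ (ρ₀ c C : ℝ) (s dl : ℂ → ℂ → ℂ → ℂ), SD3 ρ₀ c C s dl →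
  ∀ (n : ℕ) (a : ℕ → ℤ) (z : ℕ → ℂ), 1 ≤ n → RCrit0 s ρ₀ n a z →
    CritA n a z (fun j => 2 * π * dl (z j) (z ((j + 1) % n)) 0) ∧
    2 * π * (RVal0 s n a z).re = ∑ j ∈ range n, hvX (z j) (z ((j + 1) % n)) 0
      (2 * π * dl (z j) (z ((j + 1) % n)) 0)

end Pool.Agent.Y482.Cv
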