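import Pool.Agent.Y482.Cv.Defs
import Pool.Agent.Y482.Chi.Tri
import Pool.Agent.TH563.CV.Sig
import Pool.Agent.TH563.CV.Ref
import Pool.Agent.TH563.CV.Der
import Pool.Agent.TH563.CV.Base

/-!
# The terms of the tetrahedra
-/

set_option autoImplicit false

namespace Pool.Agent.Y482.Cv

open Pool.Agent.TH563.CV (rog S_SIG S_INV S_DER)
open Pool.Agent.Y482.Chi (Tri th)
open Pool.Agent.W719.AR (Fl)
open scoped Real

lemma sig : S_SIG := Pool.Agent.TH563.CV.sig Pool.Agent.TH563.CV.der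

lemma inv : S_INV :=
  Pool.Agent.TH563.CV.inv (Pool.Agent.TH563.CV.ref Pool.Agent.TH563.CV.der) sig

variable {A B : ℂ}

lemma piI_im : ((π : ℂ) * Complex.I).im = π := by simp

/-- the third logarithm -/
noncomputable def tc (A B : ℂ) : ℂ := π * Complex.I - A - B

lemma tc_im (A B : ℂ) : (tc A B).im = th A B := by
  unfold tc th
  rw [Complex.sub_im, Complex.sub_im, piI_im]

lemma rot (h : Tri A B) : Tri B (tc A B) ∧ th B (tc A B) = A.im ∧ tc B (tc A B) = A := by
  refine ⟨⟨?_, h.pB, ?_, ?_⟩, ?_, ?_⟩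
  · have e1 : Complex.exp (-tc A B) = -(Complex.exp A * Complex.exp B) := by
      unfold tc
      rw [show -(π * Complex.I - A - B) = A + B - π * Complex.I by ring, Complex.exp_sub,
        Complex.exp_add, Complex.exp_pi_mul_I]
      ring
    have e2 : Complex.exp B * Complex.exp (-B) = 1 := by rw [← Complex.exp_add]; simp
    rw [e1]
    linear_combination (-Complex.exp B) * h.eq + e2
  · rw [tc_im]; exact h.th_pos
  · rw [tc_im]; unfold th; linarith [h.pA]
  · unfold th; rw [tc_im]; unfold th; ring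
  · unfold tc; ring

lemma logs (h : Tri A B) : Complex.log (Complex.exp A) = A ∧
    1 - Complex.exp A = Complex.exp (-B) ∧ Complex.log (1 - Complex.exp A) = -B := by
  have hp := Real.pi_pos
  have e1 : 1 - Complex.exp A = Complex.exp (-B) := by linear_combination -h.eq
  refine ⟨?_, e1, ?_⟩
  · rw [Complex.log_exp]
    · linarith [h.pA]
    · linarith [h.lt, h.pB]
  · rw [e1, Complex.log_exp]
    · rw [Complex.neg_im]; linarith [h.lt, h.pA]
    · rw [Complex.neg_im]; linarith [h.pB]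

lemma exp_im_pos (h : Tri A B) : 0 < (Complex.exp A).im := by
  rw [Complex.exp_im]
  exact mul_pos (Real.exp_pos _) h.sinA_pos

lemma shape_exp (h : Tri A B) : shape A.im B.im (th A B) = Complex.exp A := by
  unfold shape
  have e1 := h.sinC.2
  have e2 := h.sinB_pos
  have e3 : Real.sin B.im / Real.sin (th A B) = Real.exp A.re := by
    rw [e1, Real.exp_neg]
    have := Real.exp_pos A.re
    field_simp
  rw [e3, Complex.ofReal_exp, ← Complex.exp_add]
  congr 1
  have := Complex.re_add_im A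
  linear_combination this

/-- the term with the labels `α`, `β` -/
noncomputable def rp (A B : ℂ) (α β : ℤ) : ℂ :=
  rog (Complex.exp A) + π * Complex.I / 2 * (α * B - β * A)

lemma pos_eq (h : Tri A B) (α β : ℤ) : pos (Complex.exp A) α β = rp A B α β := by
  obtain ⟨l1, -, l2⟩ := logs h
  unfold pos extRogers rp
  rw [l1, l2]
  push_cast
  ring

lemma rog_rot (h : Tri A B) : rog (Complex.exp B) = rog (Complex.exp A) + (π : ℂ) ^ 2 / 6 +
    π * Complex.I / 2 * B := by
  obtain ⟨l1, l2, l3⟩ := logs h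
  have h1 := sig _ (exp_im_pos h)
  have e : 1 / (1 - Complex.exp A) = Complex.exp B := by
    rw [l2, Complex.exp_neg, one_div, inv_inv]
  rw [e, l3] at h1
  linear_combination -h1

lemma rp_rot (h : Tri A B) {α β γ : ℤ} (hs : α + β + γ = 1) :
    rp B (tc A B) β γ = rp A B α β + (π : ℂ) ^ 2 / 6 * (1 - 3 * β) := by
  have h5 : (α : ℂ) + β + γ = 1 := by exact_mod_cast hs
  unfold rp tc
  rw [rog_rot h]
  linear_combination (-(π * Complex.I / 2 * B)) * h5 + ((π : ℂ) ^ 2 / 2 * β) * Complex.I_sq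

lemma neg_eq (h : Tri A B) {α β γ : ℤ} (hs : α + β + γ = 1) :
    neg (Complex.exp A) α γ = rp A B α β + (π : ℂ) ^ 2 / 6 * (3 * α) := by
  have h5 : (α : ℂ) + β + γ = 1 := by exact_mod_cast hs
  obtain ⟨l1, l2, l3⟩ := logs h
  obtain ⟨r1, r2, r3⟩ := rot h
  obtain ⟨r4, r5, r6⟩ := rot r1
  rw [r3] at r4
  have h1 := inv _ (exp_im_pos h)
  have e1 : 1 - 1 / Complex.exp A = Complex.exp (tc A B) := by
    have := (logs r4).2.1
    rw [one_div, ← Complex.exp_neg]
    linear_combination this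
  have e2 : Complex.log (1 - 1 / Complex.exp A) = tc A B := by rw [e1, (logs r4).1]
  have e3 : Complex.log (1 / Complex.exp A) = -A := by
    rw [one_div, ← Complex.exp_neg, Complex.log_exp]
    · rw [Complex.neg_im]; linarith [h.lt, h.pB]
    · rw [Complex.neg_im]; linarith [h.pA, Real.pi_pos]
  unfold neg extRogers rp
  rw [e2, e3, h1, l1]
  unfold tc
  linear_combination (π * Complex.I / 2 * A) * h5 - ((π : ℂ) ^ 2 / 2 * α) * Complex.I_sq

/-- the differences, in multiples of `π² / 6` -/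
def off (A B C x y w : ℤ) : ℤ :=
  if x < y ∧ y < w then 3 * A
  else if x < w ∧ w < y then 0
  else if y < w ∧ w < x then 1
  else if y < x ∧ x < w then 1 - 3 * B
  else if w < x ∧ x < y then -1 + 3 * (A + C)
  else -1 + 3 * A

theorem tet_eq (h : Tri A B) {α β γ : ℤ} (hs : α + β + γ = 1) (x y w : ℤ) :
    tet A.im B.im (th A B) α β γ x y w =
      rp A B α β + (π : ℂ) ^ 2 / 6 * (off α β γ x y w : ℤ) := by
  obtain ⟨t1, t2, t3⟩ := rot h
  obtain ⟨s1, s2, s3⟩ := rot t1
  rw [t3] at s1 s2 s3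
  have u1 := shape_exp h
  have u2 := shape_exp t1
  rw [tc_im, t2] at u2
  have u3 := shape_exp s1
  rw [tc_im, s2] at u3
  have p1 := rp_rot h hs
  have p2 := rp_rot t1 (α := β) (β := γ) (γ := α) (by omega)
  rw [t3] at p2
  have n1 := neg_eq h hs
  have n2 := neg_eq t1 (α := β) (β := γ) (γ := α) (by omega)
  have n3 := neg_eq s1 (α := γ) (β := α) (γ := β) (by omega)
  have h5 : (α : ℂ) + β + γ = 1 := by exact_mod_cast hs
  unfold tet off
  rw [u1, u2, u3]
  split_ifs
  · rw [n1]; push_cast; ring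
  · rw [pos_eq h]; push_cast; ring
  · rw [n2, p1]; push_cast; ring
  · rw [pos_eq t1, p1]; push_cast; ring
  · rw [n3, p2, p1]; push_cast; linear_combination (-(π : ℂ) ^ 2 / 2) * h5
  · rw [pos_eq s1, p2, p1]; push_cast; linear_combination (-(π : ℂ) ^ 2 / 2) * h5

/-- do the orders in the two disks at the end `p` disagree -/
def bit (n1 n2 n3 n4 : ℤ) : ℤ := if (n1 < n2 ↔ n4 < n3) then 0 else 1

lemma core (Fa Fb Fc' Ba Ga Gb Gc' Ha n1 n2 n3 n4 : ℤ)
    (n12 : n1 ≠ n2) (n13 : n1 ≠ n3) (n14 : n1 ≠ n4) (n23 : n2 ≠ n3) (n24 : n2 ≠ n4) (n34 : n3 ≠ n4)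
    (e1 : 1 - Fa - Fb + Ga + (1 - Ba - Fb + (Ha + Gb - Gc')) = 1)
    (e2 : Fb + Fc' + (Gb + Gc') = 2) :
    (6 : ℤ) ∣ (off Fa Fb (1 - Fa - Fb) n1 n2 n3 +
      off (1 - Fa - Fb) (Fa + Fb - Fc') Fc' n1 n3 n4 +
      (off Ga Gb (1 - Ga - Gb) n3 n2 n1 + off (1 - Ga - Gb) (Ga + Gb - Gc') Gc' n3 n1 n4) +
      (off Ba Fb (1 - Ba - Fb) n2 n1 n4 + off (1 - Ba - Fb) (Ba + Fb - Fc') Fc' n2 n4 n3 +
      (off Ha Gb (1 - Ha - Gb) n2 n3 n4 + off (1 - Ha - Gb) (Ha + Gb - Gc') Gc' n2 n4 n1))) -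
      3 * (1 + (if (n1 < n2 ↔ n4 < n3) then 0 else 1) +
        (if (n3 < n2 ↔ n4 < n1) then 0 else 1)) := by
  have t21 : n2 < n1 ↔ ¬ n1 < n2 := by omega
  have t31 : n3 < n1 ↔ ¬ n1 < n3 := by omega
  have t41 : n4 < n1 ↔ ¬ n1 < n4 := by omega
  have t32 : n3 < n2 ↔ ¬ n2 < n3 := by omega
  have t42 : n4 < n2 ↔ ¬ n2 < n4 := by omega
  have t43 : n4 < n3 ↔ ¬ n3 < n4 := by omega
  by_cases s12 : n1 < n2 <;> by_cases s13 : n1 < n3 <;> by_cases s14 : n1 < n4 <;>
    by_cases s23 : n2 < n3 <;> by_cases s24 : n2 < n4 <;> by_cases s34 : n3 < n4 <;>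
    first
    | (exfalso; omega)
    | (simp only [off, t21, t31, t41, t32, t42, t43, s12, s13, s14, s23, s24, s34,
        not_true_eq_false, not_false_eq_true, and_true, and_false, and_self, if_true, if_false,
        iff_true, iff_false, iff_self]
       omega)

end Pool.Agent.Y482.Cv
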